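import Mathlib

/-!
# MP_89a3f8_ag: stringy E-functions strictly decrease along sequences of flips

`FlipTheory` records the facts used about Q-factorial klt pairs `(X, Δ)` of dimension `d`, projective
over some base `S`, and their flips over `S`. Everything else is proved here.
-/

set_option autoImplicit false

namespace Pool.Agent.Results.MP_89a3f8_ag.BoundedSequences

open Filter Polynomial

/-- Numerical data of a log resolution `Y → X` of a pair: `m` is the number of the prime divisors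
`E_1, …, E_m` of `Y` (exceptional ones and strict transforms of the components of `Δ`; simple normal
crossings), `β J` is the virtual Poincaré polynomial of the stratum
`E_J° = ⋂_{j ∈ J} E_j ∖ ⋃_{j ∉ J} E_j` (`0` if it is empty) and `a j` is the discrepancy of `E_j`. -/
@[ext]
structure Datum where
  /-- number of divisors -/
  m : ℕ
  /-- virtual Poincaré polynomials of the strata -/
  β : Finset (Fin m) → ℤ[X]
  /-- discrepancies -/
  a : Fin m → ℝ

/-- `klt`; the divisors are nonempty; the nonempty strata have dimension `d - |J|` and their virtual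
Poincaré polynomial has twice this degree and a positive leading coefficient (the number of
irreducible components). -/
def Datum.Ok (d : ℕ) (D : Datum) : Prop :=
  (∀ j, -1 < D.a j) ∧ (∀ j, D.β {j} ≠ 0) ∧
    ∀ J, D.β J ≠ 0 → (D.β J).natDegree = 2 * (d - J.card) ∧ 0 < (D.β J).leadingCoeff

/-- The stringy E-function `Σ_J E(E_J°) Π_{j ∈ J} (uv - 1) / ((uv)^{a_j + 1} - 1)` at
`u = v = -t`. -/
noncomputable def Datum.stringy (D : Datum) (t : ℝ) : ℝ :=
  ∑ J : Finset (Fin D.m), aeval t (D.β J) *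
    ∏ j ∈ J, (t ^ 2 - 1) / (t ^ (2 * (D.a j + 1)) - 1)

universe u

/-- Q-factorial klt pairs and their flips. -/
structure FlipTheory where
  /-- pairs of dimension `d` (with a projective morphism onto a base) -/
  Pair : ℕ → Type u
  /-- `P ⇢ P'` is a flip over the base -/
  Flip : ∀ {d : ℕ}, Pair d → Pair d → Prop
  /-- `K_X + Δ` is pseudo-effective over the base -/
  Pseff : ∀ {d : ℕ}, Pair d → Prop
  /-- `D` is the datum of a log resolution of the pair -/
  Res : ∀ {d : ℕ}, Pair d → Datum → Prop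
  res_ok : ∀ {d : ℕ} (P : Pair d) (D : Datum), Res P D → D.Ok d
  /-- Batyrev: the stringy E-function does not depend on the log resolution -/
  batyrev : ∀ {d : ℕ} (P : Pair d) (D D' : Datum), Res P D → Res P D' →
    ∀ t : ℝ, 1 < t → D.stringy t = D'.stringy t
  /-- a flip has a common log resolution, on which the discrepancies do not decrease and one
  increases -/
  common : ∀ {d : ℕ} (P P' : Pair d), Flip P P' → ∃ (m : ℕ) (β : Finset (Fin m) → ℤ[X])
    (a a' : Fin m → ℝ), Res P ⟨m, β, a⟩ ∧ Res P' ⟨m, β, a'⟩ ∧ (∀ j, a j ≤ a' j) ∧ ∃ j, a j < a' j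

variable (T : FlipTheory.{u}) {d : ℕ}

/-- `P 0 ⇢ P 1 ⇢ ⋯ ⇢ P n` is a sequence of flips -/
def FlipSeq (P : ℕ → T.Pair d) (n : ℕ) : Prop := ∀ i < n, T.Flip (P i) (P (i + 1))

/-- **Q1** in dimension `d`: no infinite sequence of flips starts with a pair which is not
pseudo-effective. -/
def Q1 (d : ℕ) : Prop := ∀ P : ℕ → T.Pair d, ¬ T.Pseff (P 0) → ¬ ∀ i, T.Flip (P i) (P (i + 1))

/-- no strictly increasing sequence in `A` -/
def ACC (A : Set ℝ) : Prop := ¬ ∃ f : ℕ → ℝ, StrictMono f ∧ ∀ n, f n ∈ A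

/-- a common log resolution with the same discrepancies; for example isomorphic pairs, or crepant
birational pairs -/
def Crepant (P P' : T.Pair d) : Prop := ∃ D, T.Res P D ∧ T.Res P' D

/-- `P` has a log resolution with at most `N` divisors, virtual Betti numbers of the strata at most
`N` in absolute value, and discrepancies in `A` -/
def Tame (N : ℕ) (A : Set ℝ) (P : T.Pair d) : Prop :=
  ∃ D, T.Res P D ∧ D.m ≤ N ∧ (∀ J k, |(D.β J).coeff k| ≤ N) ∧ ∀ j, D.a j ∈ A

/-- the stringy E-function of `P` at `u = v = -t` is a finite sum `Σ_l t ^ (2 (d - x_l))` with `x_l`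
in `A` (the log discrepancies `x_l`; repetitions are allowed) -/
def Effective (A : Set ℝ) (P : T.Pair d) : Prop :=
  ∃ D, T.Res P D ∧ ∃ L : List ℝ, (∀ x ∈ L, x ∈ A) ∧
    ∀ t : ℝ, 1 < t → D.stringy t = (L.map fun x : ℝ => t ^ (2 * ((d : ℝ) - x))).sum

/-! ### Comparison of stringy functions -/

theorem aeval_pos (p : ℤ[X]) (hp : 0 < p.leadingCoeff) : ∀ᶠ t : ℝ in atTop, 0 < aeval t p := by
  have h0 : ∀ t : ℝ, aeval t p = (p.map (Int.castRingHom ℝ)).eval t := by
    intro t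
    rw [eval_map, aeval_def]
    rfl
  have hlc : (p.map (Int.castRingHom ℝ)).leadingCoeff = (p.leadingCoeff : ℝ) := by
    rw [leadingCoeff_map_of_injective (Int.cast_injective)]
    rfl
  by_cases hd : 0 < (p.map (Int.castRingHom ℝ)).degree
  · have h1 := tendsto_atTop_of_leadingCoeff_nonneg (p.map (Int.castRingHom ℝ)) hd (by
      rw [hlc]; exact_mod_cast hp.le)
    filter_upwards [h1.eventually_gt_atTop 0] with t ht
    rw [h0]; exact ht
  · have h1 : p.map (Int.castRingHom ℝ) = C ((p.map (Int.castRingHom ℝ)).coeff 0) :=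
      eq_C_of_degree_le_zero (not_lt.1 hd)
    have h2 : 0 < (p.map (Int.castRingHom ℝ)).coeff 0 := by
      have h3 : (p.map (Int.castRingHom ℝ)).leadingCoeff = (p.map (Int.castRingHom ℝ)).coeff 0 := by
        rw [leadingCoeff, natDegree_eq_zero_iff_degree_le_zero.2 (not_lt.1 hd)]
      rw [← h3, hlc]
      exact_mod_cast hp
    refine Filter.Eventually.of_forall fun t => ?_
    rw [h0, h1, eval_C]
    exact h2

/-- the factor of a divisor -/
noncomputable def w (t x : ℝ) : ℝ := (t ^ 2 - 1) / (t ^ (2 * (x + 1)) - 1)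

theorem w_den {t x : ℝ} (ht : 1 < t) (hx : -1 < x) : 0 < t ^ (2 * (x + 1)) - 1 := by
  have : 1 < t ^ (2 * (x + 1)) := Real.one_lt_rpow ht (by linarith)
  linarith

theorem w_num {t : ℝ} (ht : 1 < t) : 0 < t ^ 2 - 1 := by nlinarith

theorem w_pos {t x : ℝ} (ht : 1 < t) (hx : -1 < x) : 0 < w t x := div_pos (w_num ht) (w_den ht hx)

theorem w_lt {t x y : ℝ} (ht : 1 < t) (hx : -1 < x) (h : x < y) : w t y < w t x := by
  unfold w
  refine div_lt_div_of_pos_left (w_num ht) (w_den ht hx) ?_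
  have : t ^ (2 * (x + 1)) < t ^ (2 * (y + 1)) := Real.rpow_lt_rpow_of_exponent_lt ht (by linarith)
  linarith

theorem w_le {t x y : ℝ} (ht : 1 < t) (hx : -1 < x) (h : x ≤ y) : w t y ≤ w t x := by
  rcases h.lt_or_eq with h | h
  · exact (w_lt ht hx h).le
  · rw [h]

theorem stringy_eq (D : Datum) (t : ℝ) :
    D.stringy t = ∑ J : Finset (Fin D.m), aeval t (D.β J) * ∏ j ∈ J, w t (D.a j) := rfl

theorem stringy_le {m : ℕ} {β : Finset (Fin m) → ℤ[X]} {a a' : Fin m → ℝ} {d : ℕ}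
    (h : Datum.Ok d ⟨m, β, a⟩) (haa : ∀ j, a j ≤ a' j) :
    ∀ᶠ t : ℝ in atTop, Datum.stringy ⟨m, β, a'⟩ t ≤ Datum.stringy ⟨m, β, a⟩ t := by
  have h1 : ∀ᶠ t : ℝ in atTop, ∀ J : Finset (Fin m), 0 ≤ aeval t (β J) := by
    rw [Filter.eventually_all]
    intro J
    by_cases hJ : β J = 0
    · exact Filter.Eventually.of_forall fun t => by rw [hJ]; simp
    · filter_upwards [aeval_pos (β J) (h.2.2 J hJ).2] with t ht using ht.le
  filter_upwards [h1, eventually_gt_atTop 1] with t ht ht1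
  rw [stringy_eq, stringy_eq]
  refine Finset.sum_le_sum fun J _ => mul_le_mul_of_nonneg_left ?_ (ht J)
  refine Finset.prod_le_prod (fun j _ => ?_) fun j _ => ?_
  · exact (w_pos ht1 (lt_of_lt_of_le (h.1 j) (haa j))).le
  · exact w_le ht1 (h.1 j) (haa j)

theorem stringy_lt {m : ℕ} {β : Finset (Fin m) → ℤ[X]} {a a' : Fin m → ℝ} {d : ℕ}
    (h : Datum.Ok d ⟨m, β, a⟩) (haa : ∀ j, a j ≤ a' j) (hne : ∃ j, a j < a' j) :
    ∀ᶠ t : ℝ in atTop, Datum.stringy ⟨m, β, a'⟩ t < Datum.stringy ⟨m, β, a⟩ t := by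
  obtain ⟨j₀, hj₀⟩ := hne
  have h1 : ∀ᶠ t : ℝ in atTop, ∀ J : Finset (Fin m), 0 ≤ aeval t (β J) := by
    rw [Filter.eventually_all]
    intro J
    by_cases hJ : β J = 0
    · exact Filter.Eventually.of_forall fun t => by rw [hJ]; simp
    · filter_upwards [aeval_pos (β J) (h.2.2 J hJ).2] with t ht using ht.le
  have h2 : ∀ᶠ t : ℝ in atTop, 0 < aeval t (β {j₀}) :=
    aeval_pos (β {j₀}) (h.2.2 {j₀} (h.2.1 j₀)).2
  filter_upwards [h1, h2, eventually_gt_atTop 1] with t ht ht2 ht1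
  rw [stringy_eq, stringy_eq]
  refine Finset.sum_lt_sum (fun J _ => mul_le_mul_of_nonneg_left ?_ (ht J))
    ⟨{j₀}, Finset.mem_univ _, ?_⟩
  · refine Finset.prod_le_prod (fun j _ => ?_) fun j _ => ?_
    · exact (w_pos ht1 (lt_of_lt_of_le (h.1 j) (haa j))).le
    · exact w_le ht1 (h.1 j) (haa j)
  · rw [Finset.prod_singleton, Finset.prod_singleton]
    exact mul_lt_mul_of_pos_left (w_lt ht1 (h.1 j₀) hj₀) ht2

/-- along a flip the stringy function decreases -/
theorem flip_lt {P P' : T.Pair d} (h : T.Flip P P') {D D' : Datum} (hD : T.Res P D)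
    (hD' : T.Res P' D') : ∀ᶠ t : ℝ in atTop, D'.stringy t < D.stringy t := by
  obtain ⟨m, β, a, a', h1, h2, h3, h4⟩ := T.common P P' h
  filter_upwards [stringy_lt (T.res_ok _ _ h1) h3 h4, eventually_gt_atTop 1] with t ht ht1
  rw [T.batyrev _ _ _ hD h1 t ht1, T.batyrev _ _ _ hD' h2 t ht1]
  exact ht

/-- along a sequence of flips the stringy functions decrease -/
theorem seq_lt {P : ℕ → T.Pair d} {n : ℕ} (h : FlipSeq T P n) :
    ∀ k i : ℕ, i < k → k ≤ n → ∀ D D' : Datum, T.Res (P i) D → T.Res (P k) D' →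
      ∀ᶠ t : ℝ in atTop, D'.stringy t < D.stringy t := by
  intro k
  induction k with
  | zero => intro i hi; omega
  | succ k ih =>
    intro i hi hk D D' hD hD'
    rcases (Nat.lt_succ_iff.1 hi).lt_or_eq with h1 | h1
    · obtain ⟨m, β, a, a', h2, _, _, _⟩ := T.common _ _ (h k (by omega))
      filter_upwards [ih i h1 (by omega) D _ hD h2, flip_lt T (h k (by omega)) h2 hD']
        with t ht1 ht2 using ht2.trans ht1
    · subst h1
      exact flip_lt T (h i (by omega)) hD hD'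

theorem not_crepant {P : ℕ → T.Pair d} {n : ℕ} (h : FlipSeq T P n) {i k : ℕ} (hik : i < k)
    (hk : k ≤ n) : ¬ Crepant T (P i) (P k) := by
  rintro ⟨D, h1, h2⟩
  obtain ⟨t, ht⟩ := (seq_lt T h k i hik hk D D h1 h2).exists
  exact lt_irrefl _ ht

theorem flipSeq_of (P : ℕ → T.Pair d) (h : ∀ i, T.Flip (P i) (P (i + 1))) (n : ℕ) :
    FlipSeq T P n := fun i _ => h i

/-! ### Finiteness of numerical data -/

theorem poly_finite (e N : ℕ) :
    {p : ℤ[X] | p.natDegree ≤ e ∧ ∀ k, |p.coeff k| ≤ N}.Finite := by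
  have h1 : (Set.pi Set.univ fun _ : Fin (e + 1) => Set.Icc (-(N : ℤ)) N).Finite :=
    Set.Finite.pi fun _ => Set.finite_Icc _ _
  refine Set.Finite.of_finite_image (f := fun (p : ℤ[X]) (k : Fin (e + 1)) => p.coeff k)
    (h1.subset ?_) ?_
  · rintro _ ⟨p, hp, rfl⟩ k _
    exact abs_le.1 (hp.2 k)
  · intro p hp q hq hpq
    ext k
    by_cases hk : k < e + 1
    · exact congrFun hpq ⟨k, hk⟩
    · rw [coeff_eq_zero_of_natDegree_lt (lt_of_le_of_lt hp.1 (by omega)),
        coeff_eq_zero_of_natDegree_lt (lt_of_le_of_lt hq.1 (by omega))]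

/-- the possible strata polynomials -/
def shapes (d N : ℕ) : Set (Σ m : ℕ, Finset (Fin m) → ℤ[X]) :=
  {s | s.1 ≤ N ∧ ∀ J, (s.2 J).natDegree ≤ 2 * d ∧ ∀ k, |(s.2 J).coeff k| ≤ N}

theorem shapes_finite (d N : ℕ) : (shapes d N).Finite := by
  have h1 : shapes d N ⊆ ⋃ m ∈ Set.Iic N, (fun β => (⟨m, β⟩ : Σ m : ℕ, Finset (Fin m) → ℤ[X])) ''
      (Set.pi Set.univ fun _ => {p : ℤ[X] | p.natDegree ≤ 2 * d ∧ ∀ k, |p.coeff k| ≤ N}) := by
    rintro ⟨m, β⟩ ⟨h1, h2⟩
    simp only [Set.mem_iUnion]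
    exact ⟨m, h1, β, fun J _ => h2 J, rfl⟩
  refine Set.Finite.subset ?_ h1
  refine Set.Finite.biUnion (Set.finite_Iic N) fun m _ => ?_
  exact (Set.Finite.pi fun _ => poly_finite _ _).image _

theorem natDegree_le {D : Datum} (h : D.Ok d) (J : Finset (Fin D.m)) :
    (D.β J).natDegree ≤ 2 * d := by
  by_cases hJ : D.β J = 0
  · rw [hJ]; simp
  · rw [(h.2.2 J hJ).1]
    omega

theorem shape_mem {D : Datum} {N : ℕ} (h : D.Ok d) (h1 : D.m ≤ N)
    (h2 : ∀ J k, |(D.β J).coeff k| ≤ N) : (⟨D.m, D.β⟩ : Σ m : ℕ, Finset (Fin m) → ℤ[X]) ∈ shapes d N :=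
  ⟨h1, fun J => ⟨natDegree_le h J, h2 J⟩⟩

/-- the tame data -/
def tameData (d N : ℕ) (A : Set ℝ) : Set Datum :=
  {D | D.Ok d ∧ D.m ≤ N ∧ (∀ J k, |(D.β J).coeff k| ≤ N) ∧ ∀ j, D.a j ∈ A}

theorem tameData_finite (d N : ℕ) (A : Set ℝ) (hA : A.Finite) : (tameData d N A).Finite := by
  have h1 : tameData d N A ⊆ ⋃ s ∈ shapes d N, (fun a => (⟨s.1, s.2, a⟩ : Datum)) ''
      (Set.pi Set.univ fun _ => A) := by
    rintro D ⟨h0, h1, h2, h3⟩
    simp only [Set.mem_iUnion]
    exact ⟨⟨D.m, D.β⟩, shape_mem h0 h1 h2, D.a, fun j _ => h3 j, rfl⟩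
  refine Set.Finite.subset ?_ h1
  refine Set.Finite.biUnion (shapes_finite d N) fun s _ => ?_
  exact (Set.Finite.pi fun _ => hA).image _

/-- uniform bound -/
theorem uniform (d N : ℕ) (A : Set ℝ) (hA : A.Finite) : ∃ L : ℕ, ∀ (P : ℕ → T.Pair d) (n : ℕ),
    FlipSeq T P n → {i | i ≤ n ∧ Tame T N A (P i)}.ncard ≤ L := by
  refine ⟨(tameData d N A).ncard, fun P n h => ?_⟩
  have hch : ∀ i, ∃ D, Tame T N A (P i) → T.Res (P i) D ∧ D ∈ tameData d N A := by
    intro i
    by_cases hi : Tame T N A (P i)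
    · obtain ⟨D, h1, h2, h3, h4⟩ := hi
      exact ⟨D, fun _ => ⟨h1, T.res_ok _ _ h1, h2, h3, h4⟩⟩
    · exact ⟨⟨0, fun _ => 0, fun _ => 0⟩, fun h => absurd h hi⟩
  choose f hf using hch
  refine Set.ncard_le_ncard_of_injOn f ?_ ?_ (tameData_finite d N A hA)
  · intro i hi
    exact (hf i hi.2).2
  · intro i hi k hk hik
    by_contra hne
    have e1 := (hf i hi.2).1
    have e2 := (hf k hk.2).1
    rcases lt_or_gt_of_ne hne with hlt | hlt
    · exact not_crepant T h hlt hk.1 ⟨f i, e1, by rw [hik]; exact e2⟩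
    · exact not_crepant T h hlt hi.1 ⟨f i, by rw [hik]; exact e2, e1⟩

/-! ### ACC -/

theorem acc_pwo {A : Set ℝ} (hA : ACC A) : A.PartiallyWellOrderedOn fun x y : ℝ => y ≤ x := by
  rw [Set.partiallyWellOrderedOn_iff_exists_lt]
  intro f hf
  by_contra hcon
  push Not at hcon
  exact hA ⟨f, fun i k hik => hcon i k hik, hf⟩

/-- Dickson's lemma for ACC sets -/
theorem dickson {A : Set ℝ} (hA : ACC A) {m : ℕ} (f : ℕ → Fin m → ℝ) (hf : ∀ i j, f i j ∈ A) :
    ∃ i k, i < k ∧ ∀ j, f k j ≤ f i j := by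
  have h := Set.PartiallyWellOrderedOn.pi (s := fun _ : Fin m => A)
    (r := fun _ => fun x y : ℝ => y ≤ x) fun _ => acc_pwo hA
  rw [Set.partiallyWellOrderedOn_iff_exists_lt] at h
  exact h f fun i j _ => hf i j

/-- enumeration of an infinite set of indices -/
theorem exists_enum {S : Set ℕ} (hS : S.Infinite) : ∃ e : ℕ → ℕ, StrictMono e ∧ ∀ n, e n ∈ S := by
  classical
  have : Infinite S := hS.to_subtype
  exact ⟨fun n => Nat.Subtype.orderIsoOfNat S n, fun i k h =>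
    (Nat.Subtype.orderIsoOfNat S).strictMono h, fun n => (Nat.Subtype.orderIsoOfNat S n).2⟩

theorem tame_finite {P : ℕ → T.Pair d} (h : ∀ i, T.Flip (P i) (P (i + 1))) (N : ℕ) (A : Set ℝ)
    (hA : ACC A) : {i | Tame T N A (P i)}.Finite := by
  have h1 : {i | Tame T N A (P i)} ⊆
      ⋃ s ∈ shapes d N, {i | ∃ a, T.Res (P i) ⟨s.1, s.2, a⟩ ∧ ∀ j, a j ∈ A} := by
    rintro i ⟨D, h0, h1, h2, h3⟩
    simp only [Set.mem_iUnion]
    exact ⟨⟨D.m, D.β⟩, shape_mem (T.res_ok _ _ h0) h1 h2, D.a, h0, h3⟩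
  refine Set.Finite.subset (Set.Finite.biUnion (shapes_finite d N) fun s _ => ?_) h1
  obtain ⟨m, β⟩ := s
  by_contra hinf
  obtain ⟨e, he, hmem⟩ := exists_enum hinf
  simp only [Set.mem_ofPred_eq] at hmem
  choose a ha1 ha2 using hmem
  obtain ⟨i, k, hik, hle⟩ := dickson hA a ha2
  have h2 := seq_lt T (flipSeq_of T P h (e k)) (e k) (e i) (he hik) le_rfl _ _
    (ha1 i) (ha1 k)
  have h3 := stringy_le (T.res_ok _ _ (ha1 k)) hle
  obtain ⟨t, ht2, ht3⟩ := (h2.and h3).exists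
  exact absurd ht2 (not_lt.2 ht3)

/-! ### Effective stringy functions -/

theorem sum_le_of_sublist {t : ℝ} (ht : 1 ≤ t) (c : ℝ) {L L' : List ℝ}
    (h : List.SublistForall₂ (fun x y => y ≤ x) L L') :
    (L.map fun x : ℝ => t ^ (2 * (c - x))).sum ≤ (L'.map fun x : ℝ => t ^ (2 * (c - x))).sum := by
  have ht0 : 0 < t := by linarith
  induction h with
  | nil =>
    refine List.sum_nonneg fun x hx => ?_
    obtain ⟨y, _, rfl⟩ := List.mem_map.1 hx
    exact (Real.rpow_pos_of_pos ht0 _).le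
  | cons h1 _ ih =>
    rw [List.map_cons, List.map_cons, List.sum_cons, List.sum_cons]
    refine add_le_add ?_ ih
    exact Real.rpow_le_rpow_of_exponent_le ht (by linarith)
  | cons_right _ ih =>
    rw [List.map_cons, List.sum_cons]
    exact ih.trans (le_add_of_nonneg_left (Real.rpow_pos_of_pos ht0 _).le)

theorem effective_finite {P : ℕ → T.Pair d} (h : ∀ i, T.Flip (P i) (P (i + 1))) (A : Set ℝ)
    (hA : ACC A) : {i | Effective T A (P i)}.Finite := by
  by_contra hinf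
  obtain ⟨e, he, hmem⟩ := exists_enum hinf
  choose D hD L hL hS using hmem
  have hrefl : Std.Refl (fun x y : ℝ => y ≤ x) := ⟨fun x => le_refl x⟩
  have htrans : IsTrans ℝ (fun x y : ℝ => y ≤ x) := ⟨fun x y z h1 h2 => le_trans h2 h1⟩
  have hH := Set.PartiallyWellOrderedOn.partiallyWellOrderedOn_sublistForall₂
    (fun x y : ℝ => y ≤ x) (acc_pwo hA)
  rw [Set.partiallyWellOrderedOn_iff_exists_lt] at hH
  obtain ⟨i, k, hik, hle⟩ := hH L hL
  have h2 := seq_lt T (flipSeq_of T P h (e k)) (e k) (e i) (he hik) le_rfl _ _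
    (hD i) (hD k)
  obtain ⟨t, ht2, ht3⟩ := (h2.and (eventually_gt_atTop 1)).exists
  rw [hS i t ht3, hS k t ht3] at ht2
  exact absurd ht2 (not_lt.2 (sum_le_of_sublist ht3.le _ hle))

/-- **Main theorem.** -/
theorem result (T : FlipTheory.{u}) :
    (∀ (d N : ℕ) (A : Set ℝ), A.Finite → ∃ L : ℕ, ∀ (P : ℕ → T.Pair d) (n : ℕ),
      FlipSeq T P n → {i | i ≤ n ∧ Tame T N A (P i)}.ncard ≤ L) ∧
    (∀ (d : ℕ) (P : ℕ → T.Pair d), (∀ i, T.Flip (P i) (P (i + 1))) →
      (∀ i k, i ≠ k → ¬ Crepant T (P i) (P k)) ∧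
      ∀ A : Set ℝ, ACC A →
        {i | Effective T A (P i)}.Finite ∧ ∀ N : ℕ, {i | Tame T N A (P i)}.Finite) ∧
    (∀ d : ℕ, Q1 T d ↔ ∀ P : ℕ → T.Pair d, ¬ T.Pseff (P 0) → (∀ i, T.Flip (P i) (P (i + 1))) →
      ∃ A : Set ℝ, ACC A ∧
        ({i | Effective T A (P i)}.Infinite ∨ ∃ N : ℕ, {i | Tame T N A (P i)}.Infinite)) := by
  refine ⟨fun d N A hA => uniform T d N A hA, fun d P h => ⟨fun i k hik => ?_, fun A hA =>
    ⟨effective_finite T h A hA, fun N => tame_finite T h N A hA⟩⟩, fun d => ⟨?_, ?_⟩⟩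
  · rcases lt_or_gt_of_ne hik with hlt | hlt
    · exact not_crepant T (flipSeq_of T P h k) hlt le_rfl
    · rintro ⟨D, h1, h2⟩
      exact not_crepant T (flipSeq_of T P h i) hlt le_rfl ⟨D, h2, h1⟩
  · intro h P hP hflip
    exact absurd hflip (h P hP)
  · intro h P hP hflip
    obtain ⟨A, hA, hinf | ⟨N, hinf⟩⟩ := h P hP hflip
    · exact hinf (effective_finite T hflip A hA)
    · exact hinf (tame_finite T hflip N A hA)

end Pool.Agent.Results.MP_89a3f8_ag.BoundedSequences
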