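import Mathlib

/-!
# MP_89a3f8_ag: flips of klt pairs of dimension five over a base of dimension at least two

`RelFlipTheory S` records, one by one, the published facts used about Q-factorial klt pairs
`(X, Δ)` of dimension five over a base `S` with `dim S ≥ 2` and their flips; `Slice d` those about
the germ of a flip over a transversal slice of the image of its exceptional locus. Everything else
is proved here:

* the rigidity lemma (`Slice.not_equi`): in relative dimension at most three, if the image of the
  exceptional locus of a flip is not `S`, then the family has no simultaneous log resolution near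
  the points of this image;
* the open set of `S` where there is one only grows, so all flips but finitely many lie over a fixed
  hypersurface of `S`;
* if `-(K + Δ)` is big over `S` then the local volumes are bounded below and the Cartier indices are
  bounded along a sequence of flips;
* the argument with the ascending chain condition for local log canonical thresholds, where special
  termination comes from Fujino's termination of canonical fourfold flips and the bounded indices.

Notation: `φ : X → Z`, `φ⁺ : X⁺ → Z` are the two contractions of a flip, `C` and `C⁺` their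
exceptional loci; an index `s` denotes the fibre over `s`.
-/

set_option autoImplicit false

namespace Pool.Agent.Results.MP_89a3f8_ag.FivefoldsOverBase

/-- The germ of a flip over a slice: `B` is a smooth variety with a point `s`, `X_B → B` a family
of klt pairs whose fibres have dimension `d`, `φ : X_B → Z_B` a small `(K + Δ)`-negative
contraction over `B` with exceptional locus `C` inside the fibre `X_s`, and `X_B⁺ → Z_B` its flip,
with exceptional locus `C⁺`. `Y_B → X_B` is a log resolution, `A` an ample divisor of `Z_B`,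
`L = K + Δ + φ^*A`, and `z` is the image of a component of `C` of maximal dimension, if this is a
point. -/
structure Slice (d : ℕ) where
  /-- the dimension of `B` -/
  c : ℕ
  /-- the dimension of `C` -/
  a : ℕ
  /-- the dimension of `C⁺` -/
  e : ℕ
  /-- the dimension of `φ(C) = φ⁺(C⁺)` -/
  m : ℕ
  /-- the family is equisingular: `Y_B` and all strata of its exceptional and boundary divisors are
  smooth over `B`, `Y_s → X_s` is birational, `X_s` is irreducible and normal, exceptional divisors
  are exceptional on the fibres -/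
  equi : Prop
  one_le_c : 1 ≤ c
  /-- Kawamata, Matsuda, Matsuki 1987, 5-1-17: `dim C + dim C⁺ ≥ dim X_B - 1` -/
  kmm : c + d ≤ a + e + 1
  /-- the fibres of `C⁺ → φ(C)` have positive dimension (Zariski's main theorem) -/
  image_lt : m + 1 ≤ e
  /-- `C` is a proper closed subset of `X_s`, which is irreducible of dimension `d` -/
  exc_lt : equi → a + 1 ≤ d
  /-- `X_s⁺` is the ample model of the restriction of `L` to `X_s`, hence irreducible of dimension
  `d` (Hacon, McKernan, Xu 2013, invariance of plurigenera for log smooth families), and `C⁺` is a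
  proper closed subset -/
  plus_lt : equi → e + 1 ≤ d
  /-- the prime divisors of `X_s⁺` -/
  PrimeDiv : Type
  /-- the prime divisor is contained in `C⁺` -/
  InPlus : PrimeDiv → Prop
  /-- a closed subset of dimension `d - 1` contains a prime divisor -/
  exists_prime : e + 1 = d → ∃ D, InPlus D
  /-- the families of curves which cover the strict transform of `D` on `X_s` -/
  Family : PrimeDiv → Type
  /-- the degree of `L` on the general member of the family -/
  deg : ∀ D, Family D → ℝ
  /-- the map from a variety to an ample model extracts no divisor, and a divisor of the ample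
  model is not in the fixed part (Hu, Keel 2000, 1.6; Birkar, Cascini, Hacon, McKernan 2010, 3.6) -/
  ample_model : equi → ∀ D γ, 0 ≤ deg D γ
  /-- if `D` lies in `C⁺` then its strict transform on `X_s` is covered by curves contracted by
  `φ`, on which `L = K + Δ` is negative -/
  negative : equi → ∀ D, InPlus D → ∃ γ, deg D γ < 0
  /-- the two-dimensional components of the fibre of `Y_s → Z_s` over `z` -/
  SurfS : Type
  /-- for `u` near `s`, `u ≠ s`, the surfaces in `Y_u` over a small ball around `z` which are
  contracted to points of `X_u = Z_u` -/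
  SurfU : Type
  finS : Fintype SurfS
  finU : Fintype SurfU
  /-- the fourth Betti number of `Y_s` over a small ball around `z` -/
  bettiS : ℕ
  /-- the fourth Betti number of `Y_u` over the same ball -/
  bettiU : ℕ
  /-- Ehresmann 1951: `Y_B → B` is locally trivial over the ball -/
  ehresmann : equi → bettiS = bettiU
  /-- `Y_s` over the ball retracts onto the fibre over `z`, which has dimension at most two -/
  retract : equi → d = 3 → bettiS = Fintype.card SurfS
  /-- the dimensions of the groups `E_2^(p,q) = H^p(Z_u, R^q)` of the Leray spectral sequence of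
  `Y_u → Z_u` over the ball -/
  E : ℕ → ℕ → ℕ
  /-- the dimension of the support of the sheaf `R^q` -/
  suppDim : ℕ → ℕ
  /-- Leray 1946 -/
  leray : bettiU ≤ ∑ p ∈ Finset.range 5, E p (4 - p)
  /-- the vanishing theorem on Stein spaces (Andreotti, Frankel 1959; Artin 1973) -/
  artin : ∀ p q, suppDim q < p → E p q = 0
  supp_zero : d = 3 → suppDim 0 ≤ 3
  /-- `R^q` lives where the fibres of the birational map `Y_u → Z_u` have dimension `≥ q / 2` -/
  supp_pos : equi → d = 3 → ∀ q, 1 ≤ q → suppDim q ≤ 1
  supp_three : equi → d = 3 → ∀ q, 3 ≤ q → suppDim q = 0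
  /-- the stalks of `R^4` are spanned by the surfaces in the fibres -/
  stalk_four : equi → d = 3 → E 0 4 = Fintype.card SurfU
  /-- the dimension of the image in `X_s` -/
  dimIm : SurfS → ℕ
  /-- a contracted surface of `Y_u` is a component of a fibre of an exceptional divisor which is
  smooth over `B`; its specialisation is a component of the fibre over `z` and is contracted to a
  point of `X_s` -/
  specialise : equi → d = 3 → ∃ σ : SurfU → SurfS, Function.Injective σ ∧ ∀ F, dimIm (σ F) = 0
  /-- the strict transform of a surface of `C` contracted to `z` -/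
  strict : equi → a = 2 → m = 0 → ∃ F, dimIm F = 2

/-- **Rigidity lemma**: in relative dimension at most three the family is not equisingular. -/
theorem Slice.not_equi {d : ℕ} (hd : d ≤ 3) (σ : Slice d) : ¬ σ.equi := by
  intro h
  have h1 := σ.one_le_c
  have h2 := σ.kmm
  have h3 := σ.exc_lt h
  have h4 := σ.plus_lt h
  have h5 : σ.e + 1 ≠ d := by
    intro he
    obtain ⟨D, hD⟩ := σ.exists_prime he
    obtain ⟨γ, hγ⟩ := σ.negative h D hD
    exact absurd (σ.ample_model h D γ) (not_le.2 hγ)
  have h6 := σ.image_lt
  have hd3 : d = 3 := by omega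
  have ha : σ.a = 2 := by omega
  have hm : σ.m = 0 := by omega
  obtain ⟨τ, hτ, h0⟩ := σ.specialise h hd3
  obtain ⟨F, hF⟩ := σ.strict h ha hm
  let := σ.finS
  let := σ.finU
  have hlt : Fintype.card σ.SurfU < Fintype.card σ.SurfS := by
    refine Fintype.card_lt_of_injective_of_notMem τ hτ (b := F) ?_
    rintro ⟨G, hG⟩
    have := h0 G
    rw [hG, hF] at this
    omega
  have hU : σ.bettiU ≤ Fintype.card σ.SurfU := by
    have hle := σ.leray
    have e1 : σ.E 1 3 = 0 := σ.artin 1 3 (by have := σ.supp_three h hd3 3 le_rfl; omega)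
    have e2 : σ.E 2 2 = 0 := σ.artin 2 2 (by have := σ.supp_pos h hd3 2 (by omega); omega)
    have e3 : σ.E 3 1 = 0 := σ.artin 3 1 (by have := σ.supp_pos h hd3 1 le_rfl; omega)
    have e4 : σ.E 4 0 = 0 := σ.artin 4 0 (by have := σ.supp_zero hd3; omega)
    have e0 := σ.stalk_four h hd3
    simp only [Finset.sum_range_succ, Finset.sum_range_zero] at hle
    norm_num at hle
    omega
  have h7 := σ.ehresmann h
  have h8 := σ.retract h hd3
  omega

/-- the ascending chain condition -/
def ACC (A : Set ℝ) : Prop := ¬ ∃ t : ℕ → ℝ, StrictMono t ∧ ∀ n, t n ∈ A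

/-- Q-factorial klt pairs `(X, Δ)` of dimension five with a projective surjective morphism
`π : X → S` with connected fibres (this is no restriction, by Stein factorisation) to a normal
quasi-projective variety `S` with `dim S ≥ 2`, and their flips. -/
structure RelFlipTheory (S : Type) where
  /-- the dimension of `S` -/
  dimS : ℕ
  two_le_dimS : 2 ≤ dimS
  /-- the pairs -/
  Pair : Type
  /-- the points of `X` -/
  Pt : Pair → Type
  /-- the morphism `π` on points -/
  proj : ∀ P, Pt P → S
  /-- the flips over `S` -/
  Flip : Pair → Pair → Type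
  /-- the exceptional locus `C` of `φ` -/
  exc : ∀ {P P' : Pair}, Flip P P' → Set (Pt P)
  exc_nonempty : ∀ {P P' : Pair} (f : Flip P P'), (exc f).Nonempty
  /-- klt pairs of dimension `≤ 3` over the algebraic closure of the function field of `S` -/
  Low : Type
  /-- their flips -/
  LowFlip : Low → Low → Prop
  /-- termination in dimension at most three (Shokurov; Kawamata 1992) -/
  kawamata : ∀ g : ℕ → Low, ¬ ∀ i, LowFlip (g i) (g (i + 1))
  /-- `g` is a small Q-factorialisation of the geometric generic fibre of `P` -/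
  Generic : Pair → Low → Prop
  /-- Birkar, Cascini, Hacon, McKernan 2010 -/
  generic_exists : ∀ P, ∃ g, Generic P g
  /-- a flip whose exceptional locus does not map onto `S` does not change the generic fibre -/
  generic_vertical : ∀ {P P' : Pair} (f : Flip P P') (g : Low), proj P '' exc f ≠ Set.univ →
    Generic P g → Generic P' g
  /-- the other flips lift to a nonempty sequence of flips of a Q-factorialisation of the geometric
  generic fibre: the minimal model program over `Z` (Birkar, Cascini, Hacon, McKernan 2010) -/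
  generic_horizontal : ∀ {P P' : Pair} (f : Flip P P') (g : Low), proj P '' exc f = Set.univ →
    Generic P g → ∃ g', Generic P' g' ∧ Relation.TransGen LowFlip g g'
  /-- the smooth points of `S` near which the family `(X, Δ) → S` is equisingular in the sense of
  `Slice.equi` -/
  good : Pair → Set S
  /-- a flip is an isomorphism over the complement of the image of its exceptional locus -/
  good_flip : ∀ {P P' : Pair} (f : Flip P P'), Disjoint (proj P '' exc f) (good P) →
    good P ⊆ good P'
  /-- if the image of the exceptional locus is not `S` but meets the open set `good P`, then cutting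
  with general hyperplane sections through a general point of it gives an equisingular slice -/
  slice : ∀ {P P' : Pair} (f : Flip P P'), proj P '' exc f ≠ Set.univ →
    (proj P '' exc f ∩ good P).Nonempty → ∃ σ : Slice (5 - dimS), σ.equi
  /-- the effective Cartier divisors of `S` -/
  CDiv : Type
  /-- the support -/
  supp : CDiv → Set S
  /-- Hironaka 1964 and generic smoothness: `good P` contains a dense open set; a proper closed
  subset of a quasi-projective variety lies in a hypersurface -/
  exists_supp : ∀ P, ∃ H, (good P)ᶜ ⊆ supp H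
  /-- the log canonical threshold at `x` of `π^*H` with respect to `(X, Δ)` -/
  lct : ∀ P, CDiv → Pt P → WithTop ℝ
  /-- `(X, Δ)` is klt -/
  lct_pos : ∀ P H x, 0 < lct P H x
  lct_lt_top : ∀ P H x, proj P x ∈ supp H → lct P H x < ⊤
  /-- the local threshold is a constructible function -/
  lct_finite : ∀ P H, (Set.range (lct P H)).Finite
  /-- `X` and `X⁺` are isomorphic outside `C` and `C⁺`, and by the negativity lemma the local
  threshold at a point of `C⁺` is at least the one at some point of `C` -/
  lct_flip : ∀ {P P' : Pair} (f : Flip P P') (H : CDiv) (y : Pt P'),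
    (∃ x, lct P H x = lct P' H y) ∨ ∃ x ∈ exc f, lct P H x ≤ lct P' H y
  /-- the coefficients of `Δ` -/
  coeff : Pair → Set ℝ
  coeff_finite : ∀ P, (coeff P).Finite
  coeff_flip : ∀ {P P' : Pair}, Flip P P' → coeff P' = coeff P
  /-- the ascending chain condition for log canonical thresholds (Hacon, McKernan, Xu 2014) -/
  acc : ∀ I : Set ℝ, I.Finite → ∀ H : CDiv, ACC {t : ℝ | ∃ P, coeff P = I ∧ ∃ x, lct P H x = t}
  /-- `N > 0`, and `N (K + Δ)` and `N D` for every Weil divisor `D` of `X` are Cartier -/
  Index : Pair → ℕ → Prop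
  /-- thresholds with respect to rational boundaries are rational -/
  lct_rational : ∀ P N H x (t : ℝ), Index P N → lct P H x = t → ∃ q : ℚ, (q : ℝ) = t
  /-- the dlt pairs of dimension at most four induced on log canonical centres -/
  Cen : Type
  /-- their flips whose exceptional loci lie where the pair is klt -/
  CenFlip : Cen → Cen → Prop
  /-- `N > 0` and `N (K + Δ)` is Cartier on the centre -/
  CenIndex : Cen → ℕ → Prop
  cenIndex_pos : ∀ c N, CenIndex c N → 0 < N
  /-- the number of exceptional divisors over the klt locus with log discrepancy at most one, and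
  the sum of their log discrepancies -/
  low : Cen → ℕ
  lowSum : Cen → ℝ
  /-- all log discrepancies are multiples of `1 / N` -/
  lowSum_mem : ∀ c N, CenIndex c N → ∃ k : ℕ, N * lowSum c = k
  /-- log discrepancies do not decrease, so no new divisor has log discrepancy at most one -/
  low_flip : ∀ c c', CenFlip c c' → low c' ≤ low c
  /-- if their number stays the same then so do the divisors, and their log discrepancies do not
  decrease -/
  lowSum_flip : ∀ c c', CenFlip c c' → low c' = low c → lowSum c ≤ lowSum c'
  lowSum_le : ∀ c, lowSum c ≤ low c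
  /-- Kawamata 1992 in dimension at most three, Fujino 2004 (termination of canonical fourfold flips)
  in dimension four: flips which do not change the log discrepancies at most one lift to flips of
  the Q-factorial terminalisations over the klt locus (Birkar, Cascini, Hacon, McKernan 2010).
  Fujino's proof also works over a base and on an open set: the difficulty is local, and for the
  flips of type `(2, 1)` the homology group may be replaced by its part of weight `-4`. -/
  fujino : ∀ c : ℕ → Cen, (∀ i, low (c (i + 1)) = low (c i)) →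
    (∀ i, lowSum (c (i + 1)) = lowSum (c i)) → ¬ ∀ i, CenFlip (c i) (c (i + 1))
  /-- special termination (Shokurov 2003; Fujino 2007; for log canonical pairs Birkar 2007): if
  `(X_i, Δ_i + t π^*H)` is log canonical near the exceptional loci of a sequence of flips, and
  infinitely many of these meet its non-klt locus, then some log canonical centre of a dlt
  modification has an infinite sequence of flips. Infinitely many members of it belong to dlt
  modifications of some `(X_i, Δ_i + t π^*H)`; by adjunction the indices of these members are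
  bounded if those of the `(X_i, Δ_i)` are bounded and `t` is rational. -/
  special : ∀ (P : ℕ → Pair) (f : ∀ i, Flip (P i) (P (i + 1))) (H : CDiv) (t : ℝ), 0 ≤ t →
    (∀ i, ∀ x ∈ exc (f i), (t : WithTop ℝ) ≤ lct (P i) H x) →
    (∀ N, ∃ i ≥ N, ∃ x ∈ exc (f i), lct (P i) H x = t) →
    ∃ c : ℕ → Cen, (∀ i, CenFlip (c i) (c (i + 1))) ∧
      ((∃ q : ℚ, (q : ℝ) = t) → ∀ N, (∀ i, Index (P i) N) →
        ∃ N', ∀ j, ∃ i ≥ j, CenIndex (c i) N')
  /-- `Δ` is rational and `-(K + Δ)` is big over `S` -/
  AntiBig : Pair → Prop
  antiBig_flip : ∀ {P P' : Pair}, Flip P P' → AntiBig P → AntiBig P'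
  /-- `Δ` is rational and `K + Δ` is not pseudo-effective over `S` -/
  NotPseff : Pair → Prop
  /-- if the fibres are curves, divisors of negative degree are anti-big -/
  antiBig_of_curves : dimS = 4 → ∀ P, NotPseff P → AntiBig P
  /-- the divisorial valuations with centre on `X` -/
  Val : Type
  /-- the log discrepancy -/
  ld : Pair → Val → ℝ
  /-- the supremum of the orders of vanishing of the members of a graded linear series of
  `-(K + Δ)` of positive volume, which comes from a compactification; it is the same series for all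
  pairs of a sequence of flips -/
  ord : Pair → Val → ℝ
  ord_nonneg : ∀ P v, AntiBig P → 0 ≤ ord P v
  /-- the negativity lemma, and the orders of vanishing of the same sections -/
  ld_flip : ∀ {P P' : Pair}, Flip P P' → AntiBig P → ∀ v,
    ld P v ≤ ld P' v ∧ ord P' v - ord P v = ld P' v - ld P v
  /-- the alpha invariant of a klt pair is positive -/
  alpha : ∀ P, AntiBig P → ∃ a : ℝ, 0 < a ∧ ∀ v, a * ord P v ≤ ld P v
  /-- the volume of the series -/
  vol : Pair → ℝ
  vol_pos : ∀ P, AntiBig P → 0 < vol P
  vol_flip : ∀ {P P' : Pair}, Flip P P' → AntiBig P → vol P' = vol P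
  /-- the local volume of the singularity (Li 2018) -/
  lvol : ∀ P, Pt P → ℝ
  /-- the local-to-global inequality (Fujita 2018; Liu 2018) -/
  liu : ∀ P (a : ℝ), AntiBig P → 0 < a → (∀ v, a * ord P v ≤ ld P v) →
    ∀ x, a ^ 5 * vol P ≤ lvol P x
  /-- local Cartier indices are at most `5 ^ 5 / lvol` (Xu, Zhuang 2021) -/
  xu_zhuang : ∀ (I : Set ℝ) (δ : ℝ), 0 < δ → ∃ N, ∀ P, coeff P = I → AntiBig P →
    (∀ x, δ ≤ lvol P x) → Index P N
  /-- flips over a point, for projective `X` -/
  AbsFlip : Pair → Pair → Prop
  /-- `S` contains no rational curve -/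
  NoRationalCurve : Prop
  /-- flipping rays are spanned by rational curves (Kawamata 1991), so if `S` contains none then a
  flip over a point is a flip over `S` -/
  cone : NoRationalCurve → ∀ P P', AbsFlip P P' → Nonempty (Flip P P')

variable {S : Type} (T : RelFlipTheory S)

/-- a sequence of flips over `S`; if `S` contains no rational curve, flips over a point are also
allowed -/
def FlipSeq (P : ℕ → T.Pair) : Prop :=
  ∀ i, Nonempty (T.Flip (P i) (P (i + 1))) ∨ (T.NoRationalCurve ∧ T.AbsFlip (P i) (P (i + 1)))

/-- the image of the exceptional locus in `S` -/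
def locus {P P' : T.Pair} (f : T.Flip P P') : Set S := T.proj P '' T.exc f

/-! ### Flips whose exceptional locus maps onto the base -/

theorem low_wf : WellFounded (fun b a : T.Low => Relation.TransGen T.LowFlip a b) := by
  have h : WellFounded (fun b a : T.Low => T.LowFlip a b) := by
    refine ⟨fun a => ?_⟩
    by_contra ha
    rw [not_acc_iff_exists_descending_chain] at ha
    obtain ⟨g, -, hg⟩ := ha
    exact T.kawamata g hg
  have h' := h.transGen
  refine Subrelation.wf ?_ h'
  intro b a hab
  exact Relation.transGen_swap.1 hab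

theorem finite_horizontal (P : ℕ → T.Pair) (f : ∀ i, T.Flip (P i) (P (i + 1))) :
    ∃ N, ∀ i ≥ N, locus T (f i) ≠ Set.univ := by
  have key : ∀ g : T.Low, ∀ j, T.Generic (P j) g → ∃ N, ∀ i ≥ N, locus T (f i) ≠ Set.univ := by
    intro g
    induction g using (low_wf T).induction with
    | _ g ih =>
      intro j hj
      by_cases hall : ∀ i ≥ j, locus T (f i) ≠ Set.univ
      · exact ⟨j, hall⟩
      · push Not at hall
        obtain ⟨i0, hi0, hu0⟩ := hall
        classical
        have hex : ∃ k, locus T (f (j + k)) = Set.univ :=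
          ⟨i0 - j, by rw [Nat.add_sub_cancel' hi0]; exact hu0⟩
        have hgen : ∀ k ≤ Nat.find hex, T.Generic (P (j + k)) g := by
          intro k
          induction k with
          | zero => exact fun _ => hj
          | succ k ihk =>
            intro hk
            exact T.generic_vertical (f (j + k)) g (Nat.find_min hex (Nat.lt_of_succ_le hk))
              (ihk (Nat.le_of_succ_le hk))
        obtain ⟨g', hg', hgg⟩ := T.generic_horizontal (f (j + Nat.find hex)) g (Nat.find_spec hex)
          (hgen _ le_rfl)
        exact ih g' hgg (j + Nat.find hex + 1) hg'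
  obtain ⟨g, hg⟩ := T.generic_exists (P 0)
  exact key g 0 hg

/-! ### The good locus -/

theorem disjoint_good {P P' : T.Pair} (f : T.Flip P P') (h : locus T f ≠ Set.univ) :
    Disjoint (locus T f) (T.good P) := by
  by_contra hd
  rw [Set.disjoint_iff_inter_eq_empty, ← Ne, ← Set.nonempty_iff_ne_empty] at hd
  obtain ⟨σ, hσ⟩ := T.slice f h hd
  have := T.two_le_dimS
  exact Slice.not_equi (by omega) σ hσ

theorem good_mono (P : ℕ → T.Pair) (f : ∀ i, T.Flip (P i) (P (i + 1)))
    (h : ∀ i, locus T (f i) ≠ Set.univ) (i : ℕ) : T.good (P 0) ⊆ T.good (P i) := by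
  induction i with
  | zero => exact subset_rfl
  | succ i ih => exact ih.trans (T.good_flip (f i) (disjoint_good T (f i) (h i)))

theorem coeff_const (P : ℕ → T.Pair) (f : ∀ i, T.Flip (P i) (P (i + 1))) (i : ℕ) :
    T.coeff (P i) = T.coeff (P 0) := by
  induction i with
  | zero => rfl
  | succ i ih => exact (T.coeff_flip (f i)).trans ih

/-! ### Bounded Cartier indices -/

theorem index_bounded (P : ℕ → T.Pair) (f : ∀ i, T.Flip (P i) (P (i + 1)))
    (h0 : T.AntiBig (P 0)) : ∃ N, ∀ i, T.Index (P i) N := by
  have hanti : ∀ i, T.AntiBig (P i) := by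
    intro i
    induction i with
    | zero => exact h0
    | succ i ih => exact T.antiBig_flip (f i) ih
  have hvol : ∀ i, T.vol (P i) = T.vol (P 0) := by
    intro i
    induction i with
    | zero => rfl
    | succ i ih => exact (T.vol_flip (f i) (hanti i)).trans ih
  obtain ⟨a0, ha0, halpha⟩ := T.alpha (P 0) h0
  set a := min a0 1 with ha
  have hapos : 0 < a := lt_min ha0 one_pos
  have hkeep : ∀ i v, a * T.ord (P i) v ≤ T.ld (P i) v := by
    intro i
    induction i with
    | zero =>
      intro v
      exact (mul_le_mul_of_nonneg_right (min_le_left _ _) (T.ord_nonneg _ _ h0)).trans (halpha v)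
    | succ i ih =>
      intro v
      obtain ⟨h1, h2⟩ := T.ld_flip (f i) (hanti i) v
      have h3 : a * (T.ld (P (i + 1)) v - T.ld (P i) v) ≤ T.ld (P (i + 1)) v - T.ld (P i) v :=
        mul_le_of_le_one_left (sub_nonneg.2 h1) (min_le_right _ _)
      have h4 := ih v
      have h5 : T.ord (P (i + 1)) v = T.ord (P i) v + (T.ld (P (i + 1)) v - T.ld (P i) v) := by
        linarith
      rw [h5, mul_add]
      linarith
  have hδ : 0 < a ^ 5 * T.vol (P 0) := mul_pos (pow_pos hapos 5) (T.vol_pos _ h0)
  obtain ⟨N, hN⟩ := T.xu_zhuang (T.coeff (P 0)) _ hδ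
  refine ⟨N, fun i => hN (P i) (coeff_const T P f i) (hanti i) fun x => ?_⟩
  rw [← hvol i]
  exact T.liu (P i) a (hanti i) hapos (hkeep i) x

/-! ### Thresholds -/

theorem eventually_const (u : ℕ → ℕ) (h : Antitone u) : ∃ N, ∀ i ≥ N, u i = u N := by
  obtain ⟨N, hN⟩ := Nat.sInf_mem (Set.range_nonempty u)
  refine ⟨N, fun i hi => le_antisymm (h hi) ?_⟩
  rw [hN]
  exact Nat.sInf_le ⟨i, rfl⟩

/-- no infinite sequence of flips of log canonical centres has a subsequence of bounded index -/
theorem no_cen (c : ℕ → T.Cen) (hc : ∀ i, T.CenFlip (c i) (c (i + 1))) (N : ℕ)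
    (hN : ∀ j, ∃ i ≥ j, T.CenIndex (c i) N) : False := by
  -- the number of divisors is finally constant
  have hanti : Antitone fun i => T.low (c i) :=
    antitone_nat_of_succ_le fun i => T.low_flip _ _ (hc i)
  obtain ⟨i0, hlow⟩ := eventually_const _ hanti
  -- then the sum of the log discrepancies is monotone and bounded
  have hmono : ∀ i ≥ i0, ∀ j ≥ i, T.lowSum (c i) ≤ T.lowSum (c j) := by
    intro i hi j hj
    induction j, hj using Nat.le_induction with
    | base => exact le_rfl
    | succ j hj ih =>
      exact ih.trans (T.lowSum_flip _ _ (hc j) ((hlow (j + 1) (by omega)).trans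
        (hlow j (by omega)).symm))
  have hbd : ∀ i ≥ i0, T.lowSum (c i) ≤ T.low (c i0) := by
    intro i hi
    have h1 := T.lowSum_le (c i)
    rwa [hlow i hi] at h1
  -- and it lies in `(1 / N) ℤ` infinitely often
  have hN0 : 0 < (N : ℝ) := by
    obtain ⟨i, -, hi⟩ := hN 0
    exact_mod_cast T.cenIndex_pos (c i) N hi
  let K : Set ℕ := {k | ∃ i ≥ i0, T.CenIndex (c i) N ∧ (N : ℝ) * T.lowSum (c i) = k}
  have hKb : ∀ k ∈ K, k ≤ N * T.low (c i0) := by
    rintro k ⟨i, hi, -, hk⟩
    have h2 : (N : ℝ) * T.lowSum (c i) ≤ N * T.low (c i0) :=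
      mul_le_mul_of_nonneg_left (hbd i hi) hN0.le
    rw [hk] at h2
    exact_mod_cast h2
  have hKne : K.Nonempty := by
    obtain ⟨i, hi, hidx⟩ := hN i0
    obtain ⟨k, hk⟩ := T.lowSum_mem _ _ hidx
    exact ⟨k, i, hi, hidx, hk⟩
  have hKf : K.Finite := (Set.finite_Iic (N * T.low (c i0))).subset hKb
  obtain ⟨m, ⟨j0, hj0, -, hm⟩, hmax⟩ := Set.exists_max_image K id hKf hKne
  have hconst : ∀ i ≥ j0, T.lowSum (c i) = T.lowSum (c j0) := by
    intro i hi
    refine le_antisymm ?_ (hmono j0 hj0 i hi)
    obtain ⟨i', hi', hidx⟩ := hN i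
    refine (hmono i (by omega) i' hi').trans ?_
    obtain ⟨k, hk⟩ := T.lowSum_mem _ _ hidx
    have h1 : k ≤ m := hmax k ⟨i', by omega, hidx, hk⟩
    have h2 : (N : ℝ) * T.lowSum (c i') ≤ N * T.lowSum (c j0) := by
      rw [hk, hm]
      exact_mod_cast h1
    exact le_of_mul_le_mul_left h2 hN0
  refine T.fujino (fun i => c (j0 + i)) (fun i => ?_) (fun i => ?_) fun i => hc (j0 + i)
  · exact (hlow _ (by omega)).trans (hlow _ (by omega)).symm
  · exact (hconst _ (by omega)).trans (hconst _ (by omega)).symm

/-- the sequences to which special termination applies -/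
def Bdd (P : ℕ → T.Pair) : Prop := ∃ N, ∀ i, T.Index (P i) N

theorem special_termination (P : ℕ → T.Pair) (hP : Bdd T P)
    (f : ∀ i, T.Flip (P i) (P (i + 1))) (H : T.CDiv) (t : ℝ) (ht : 0 ≤ t)
    (hr : ∃ q : ℚ, (q : ℝ) = t)
    (h : ∀ i, ∀ x ∈ T.exc (f i), (t : WithTop ℝ) ≤ T.lct (P i) H x) :
    ∃ N, ∀ i ≥ N, ∀ x ∈ T.exc (f i), (t : WithTop ℝ) < T.lct (P i) H x := by
  by_contra hcon
  have hcon' : ∀ N, ∃ i ≥ N, ∃ x ∈ T.exc (f i), T.lct (P i) H x = t := by
    intro N
    by_contra hN
    refine hcon ⟨N, fun i hi x hx => lt_of_le_of_ne (h i x hx) fun he => ?_⟩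
    exact hN ⟨i, hi, x, hx, he.symm⟩
  obtain ⟨c, hc, hidx⟩ := T.special P f H t ht h hcon'
  obtain ⟨N, hN⟩ := hP
  obtain ⟨N', hN'⟩ := hidx hr N hN
  exact no_cen T c hc N' hN'

/-- one step of the argument with thresholds -/
theorem raise (P : ℕ → T.Pair) (hP : Bdd T P) (f : ∀ i, T.Flip (P i) (P (i + 1))) (H : T.CDiv)
    (hH : ∀ i, locus T (f i) ⊆ T.supp H) (t : ℝ) (ht : 0 ≤ t) (hr : ∃ q : ℚ, (q : ℝ) = t) (N : ℕ)
    (h : ∀ i ≥ N, ∀ x ∈ T.exc (f i), (t : WithTop ℝ) ≤ T.lct (P i) H x) :
    ∃ t' : ℝ, t < t' ∧ (∃ q : ℚ, (q : ℝ) = t') ∧ (∃ i x, T.lct (P i) H x = t') ∧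
      ∃ N', ∀ i ≥ N', ∀ x ∈ T.exc (f i), (t' : WithTop ℝ) ≤ T.lct (P i) H x := by
  obtain ⟨M0, hM0⟩ := hP
  have hP' : Bdd T (fun i => P (N + i)) := ⟨M0, fun i => hM0 (N + i)⟩
  obtain ⟨M, hM⟩ := special_termination T (fun i => P (N + i)) hP' (fun i => f (N + i)) H t ht hr
    (fun i => h (N + i) (Nat.le_add_right N i))
  set N' := N + M with hN'
  have h1 : ∀ i ≥ N', ∀ x ∈ T.exc (f i), (t : WithTop ℝ) < T.lct (P i) H x := by
    intro i hi
    obtain ⟨j, rfl⟩ := Nat.exists_eq_add_of_le (le_trans (Nat.le_add_right N M) hi)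
    exact hM j (by omega)
  obtain ⟨x0, hx0⟩ := T.exc_nonempty (f N')
  have hfin : {v | v ∈ Set.range (T.lct (P N') H) ∧ (t : WithTop ℝ) < v}.Finite :=
    (T.lct_finite (P N') H).subset fun v hv => hv.1
  have hne : {v | v ∈ Set.range (T.lct (P N') H) ∧ (t : WithTop ℝ) < v}.Nonempty :=
    ⟨_, ⟨x0, rfl⟩, h1 N' le_rfl x0 hx0⟩
  obtain ⟨v, ⟨⟨xv, hxv⟩, htv⟩, hmin⟩ := Set.exists_min_image _ id hfin hne
  have hvtop : v < ⊤ := lt_of_le_of_lt (hmin _ ⟨⟨x0, rfl⟩, h1 N' le_rfl x0 hx0⟩)
    (T.lct_lt_top _ _ _ (hH N' ⟨x0, hx0, rfl⟩))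
  obtain ⟨t', rfl⟩ := WithTop.ne_top_iff_exists.1 hvtop.ne
  have hprop : ∀ i ≥ N', ∀ y : T.Pt (P i),
      T.lct (P i) H y ≤ (t : WithTop ℝ) ∨ (t' : WithTop ℝ) ≤ T.lct (P i) H y := by
    intro i hi
    induction i, hi using Nat.le_induction with
    | base =>
      intro y
      rcases le_or_gt (T.lct (P N') H y) (t : WithTop ℝ) with hy | hy
      · exact Or.inl hy
      · exact Or.inr (hmin _ ⟨⟨y, rfl⟩, hy⟩)
    | succ i hi ih =>
      intro y
      rcases T.lct_flip (f i) H y with ⟨x, hx⟩ | ⟨x, hx, hxy⟩
      · rw [← hx]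
        exact ih x
      · right
        refine le_trans ?_ hxy
        rcases ih x with h2 | h2
        · exact absurd (h1 i hi x hx) (not_lt.2 h2)
        · exact h2
  have hadm : ∃ q : ℚ, (q : ℝ) = t' := T.lct_rational (P N') M0 H xv t' (hM0 N') hxv
  refine ⟨t', WithTop.coe_lt_coe.1 htv, hadm, ⟨N', xv, hxv⟩, N', ?_⟩
  intro i hi x hx
  rcases hprop i hi x with h2 | h2
  · exact absurd (h1 i hi x hx) (not_lt.2 h2)
  · exact h2

/-- no infinite sequence of flips lies over a fixed hypersurface of the base -/
theorem no_sequence_over (P : ℕ → T.Pair) (hP : Bdd T P) (f : ∀ i, T.Flip (P i) (P (i + 1)))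
    (H : T.CDiv) (hH : ∀ i, locus T (f i) ⊆ T.supp H) : False := by
  let A := {q : ℝ × ℕ // 0 ≤ q.1 ∧ (∃ r : ℚ, (r : ℝ) = q.1) ∧
    ∀ i ≥ q.2, ∀ x ∈ T.exc (f i), (q.1 : WithTop ℝ) ≤ T.lct (P i) H x}
  have step : ∀ q : A, ∃ q' : A, q.1.1 < q'.1.1 ∧ ∃ i x, T.lct (P i) H x = q'.1.1 := by
    rintro ⟨⟨t, N⟩, ht, hr, hN⟩
    obtain ⟨t', h1, hr', h2, N', h3⟩ := raise T P hP f H hH t ht hr N hN
    exact ⟨⟨⟨t', N'⟩, ht.trans h1.le, hr', h3⟩, h1, h2⟩
  choose g hg1 hg2 using step
  let q0 : A := ⟨⟨0, 0⟩, le_rfl, ⟨0, Rat.cast_zero⟩, fun i _ x _ => (T.lct_pos (P i) H x).le⟩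
  refine T.acc (T.coeff (P 0)) (T.coeff_finite _) H ⟨fun n => (g^[n + 1] q0).1.1, ?_, ?_⟩
  · refine strictMono_nat_of_lt_succ fun n => ?_
    rw [Function.iterate_succ_apply' g (n + 1) q0]
    exact hg1 _
  · intro n
    obtain ⟨i, x, hx⟩ := hg2 (g^[n] q0)
    rw [← Function.iterate_succ_apply' g n q0] at hx
    exact ⟨P i, coeff_const T P f i, x, hx⟩

theorem no_sequence (P : ℕ → T.Pair) (hP : Bdd T P) (f : ∀ i, T.Flip (P i) (P (i + 1))) :
    False := by
  obtain ⟨N, hN⟩ := finite_horizontal T P f
  let Q : ℕ → T.Pair := fun i => P (N + i)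
  let g : ∀ i, T.Flip (Q i) (Q (i + 1)) := fun i => f (N + i)
  have hg : ∀ i, locus T (g i) ≠ Set.univ := fun i => hN (N + i) (Nat.le_add_right N i)
  obtain ⟨M, hM⟩ := hP
  have hQ : Bdd T Q := ⟨M, fun i => hM (N + i)⟩
  obtain ⟨H, hH⟩ := T.exists_supp (Q 0)
  refine no_sequence_over T Q hQ g H fun i => ?_
  refine Set.Subset.trans ?_ hH
  intro s hs hs'
  exact Set.disjoint_left.1 (disjoint_good T (g i) (hg i)) hs (good_mono T Q g hg i hs')

theorem flips_of_seq (P : ℕ → T.Pair) (hP : FlipSeq T P) :
    Nonempty (∀ i, T.Flip (P i) (P (i + 1))) := by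
  refine ⟨fun i => Nonempty.some ?_⟩
  rcases hP i with h | ⟨h1, h2⟩
  · exact h
  · exact T.cone h1 _ _ h2

/-- **Main theorem**: there is no infinite sequence of flips of klt pairs of dimension five over a
base of dimension at least two if `-(K + Δ)` is big over `S`, or if the relative dimension is one
and `K + Δ` is not pseudo-effective over `S` (with `Δ` rational in both cases), or if the Cartier
indices of the members are bounded. Flips over a point are included if `S` contains no rational
curve. -/
theorem result {S : Type} (T : RelFlipTheory S) :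
    ¬ ∃ P : ℕ → T.Pair, FlipSeq T P ∧
      (T.AntiBig (P 0) ∨ (T.dimS = 4 ∧ T.NotPseff (P 0)) ∨ ∃ N, ∀ i, T.Index (P i) N) := by
  rintro ⟨P, hP, h0⟩
  obtain ⟨f⟩ := flips_of_seq T P hP
  rcases h0 with h0 | ⟨hS, h0⟩ | h0
  · exact no_sequence T P (index_bounded T P f h0) f
  · exact no_sequence T P (index_bounded T P f (T.antiBig_of_curves hS _ h0)) f
  · exact no_sequence T P h0 f

end Pool.Agent.Results.MP_89a3f8_ag.FivefoldsOverBase
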