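import Mathlib

/-!
# MP_89a3f8_ag: flips of klt fourfolds over a positive-dimensional base terminate

`RelFlipTheory S` records, one by one, the published facts used about Q-factorial klt fourfolds
`(X, Δ)` over a base `S` of positive dimension and their flips; `Germ d` those about a flip near the
fibre over one point `s` of the image of its exceptional locus. Everything else is proved here:

* the rigidity lemma (`Germ.not_equi`): if the image of the exceptional locus of a flip is not `S`,
  then the family has no simultaneous log resolution near the points of this image;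
* the open set of these points only grows, so all flips but finitely many lie over a fixed
  hypersurface of `S`;
* the argument with the ascending chain condition for local log canonical thresholds.

Notation: `φ : X → Z`, `φ⁺ : X⁺ → Z` are the two contractions of a flip, `C` and `C⁺` their
exceptional loci; an index `s` denotes the fibre over `s`.
-/

set_option autoImplicit false

namespace Pool.Agent.Results.MP_89a3f8_ag.FourfoldsOverBase

/-- A flip `φ : X → Z`, `φ⁺ : X⁺ → Z` of klt fourfolds over a base of dimension `4 - d`, near the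
fibres `X_s`, `X_s⁺` over a point `s` of the image `T ≠ S` of the exceptional loci `C`, `C⁺`. `Y → X`
is a log resolution near `X_s`, `A` an ample divisor of `Z`, `L = K + Δ + φ^*A`, and `z` is a point
of `φ(C_s)` in the image of a component of `C_s` of dimension `dim C_s`. -/
structure Germ (d : ℕ) where
  /-- the dimension of `C_s` -/
  a : ℕ
  /-- the dimension of `C_s⁺` -/
  e : ℕ
  /-- the dimension of `φ(C_s) = φ⁺(C_s⁺)` -/
  m : ℕ
  /-- the family is equisingular near `s`: `S`, `Y` and all strata of its exceptional and boundary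
  divisors are smooth over a neighbourhood of `s`, `Y_s → X_s` is birational, `X_s` is irreducible
  and normal, exceptional divisors are exceptional on the fibres -/
  equi : Prop
  /-- Kawamata, Matsuda, Matsuki 1987, 5-1-17: `dim C + dim C⁺ ≥ dim X - 1 = 3`; if `d = 3` then
  `S` is a curve, so `C`, `C⁺` are `C_s`, `C_s⁺` near the fibres over `s` -/
  kmm : d = 3 → 3 ≤ a + e
  /-- the fibres of `C_s⁺ → φ(C_s)` have positive dimension (Zariski's main theorem) -/
  image_lt : m + 1 ≤ e
  /-- `C_s` is a proper closed subset of `X_s`, which is irreducible of dimension `d` -/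
  exc_lt : equi → a + 1 ≤ d
  /-- `X_s⁺` is the ample model of the restriction of `L` to `X_s`, hence irreducible of dimension
  `d` (Hacon, McKernan, Xu 2013, invariance of plurigenera for log smooth families), and `C_s⁺` is a
  proper closed subset -/
  plus_lt : equi → e + 1 ≤ d
  /-- the prime divisors of `X_s⁺` -/
  PrimeDiv : Type
  /-- the prime divisor is contained in `C⁺` -/
  InPlus : PrimeDiv → Prop
  /-- a closed subset of dimension `d - 1` contains a prime divisor -/
  exists_prime : e + 1 = d → ∃ D, InPlus D
  /-- the families of curves which cover the strict transform of `D` on `X_s` -/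
  Family : PrimeDiv → Type
  /-- the degree of `L` on the general member of the family -/
  deg : ∀ D, Family D → ℝ
  /-- the map from a variety to an ample model extracts no divisor, and a divisor of the ample
  model is not in the fixed part (Hu, Keel 2000, 1.6; Birkar, Cascini, Hacon, McKernan 2010, 3.6) -/
  ample_model : equi → ∀ D γ, 0 ≤ deg D γ
  /-- if `D` lies in `C⁺` then its strict transform on `X_s` is covered by curves contracted by
  `φ`, on which `L = K + Δ` is negative -/
  negative : equi → ∀ D, InPlus D → ∃ γ, deg D γ < 0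
  /-- the two-dimensional components of the fibre of `Y_s → Z_s` over `z` -/
  SurfS : Type
  /-- for `u` near `s`, not in `T`, the surfaces in `Y_u` over a small ball around `z` which are
  contracted to points of `X_u = Z_u` -/
  SurfU : Type
  finS : Fintype SurfS
  finU : Fintype SurfU
  /-- the fourth Betti number of `Y_s` over a small ball around `z` -/
  bettiS : ℕ
  /-- the fourth Betti number of `Y_u` over the same ball -/
  bettiU : ℕ
  /-- Ehresmann 1951: `Y → S` is locally trivial over the ball -/
  ehresmann : equi → bettiS = bettiU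
  /-- `Y_s` over the ball retracts onto the fibre over `z`, which has dimension at most two -/
  retract : equi → d = 3 → bettiS = Fintype.card SurfS
  /-- the dimensions of the groups `E_2^(p,q) = H^p(Z_u, R^q)` of the Leray spectral sequence of
  `Y_u → Z_u` over the ball -/
  E : ℕ → ℕ → ℕ
  /-- the dimension of the support of the sheaf `R^q` -/
  suppDim : ℕ → ℕ
  /-- Leray 1946 -/
  leray : bettiU ≤ ∑ p ∈ Finset.range 5, E p (4 - p)
  /-- the vanishing theorem on Stein spaces (Andreotti, Frankel 1959; Artin 1973) -/
  artin : ∀ p q, suppDim q < p → E p q = 0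
  supp_zero : d = 3 → suppDim 0 ≤ 3
  /-- `R^q` lives where the fibres of the birational map `Y_u → Z_u` have dimension `≥ q / 2` -/
  supp_pos : equi → d = 3 → ∀ q, 1 ≤ q → suppDim q ≤ 1
  supp_three : equi → d = 3 → ∀ q, 3 ≤ q → suppDim q = 0
  /-- the stalks of `R^4` are spanned by the surfaces in the fibres -/
  stalk_four : equi → d = 3 → E 0 4 = Fintype.card SurfU
  /-- the dimension of the image in `X_s` -/
  dimIm : SurfS → ℕ
  /-- a contracted surface of `Y_u` is a component of a fibre of an exceptional divisor which is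
  smooth over `S`; its specialisation is a component of the fibre over `z` and is contracted to a
  point of `X_s` -/
  specialise : equi → d = 3 → ∃ σ : SurfU → SurfS, Function.Injective σ ∧ ∀ F, dimIm (σ F) = 0
  /-- the strict transform of a surface of `C` contracted to `z` -/
  strict : equi → a = 2 → m = 0 → ∃ F, dimIm F = 2

/-- **Rigidity lemma**: in relative dimension at most three the family is not equisingular. -/
theorem Germ.not_equi {d : ℕ} (hd : d ≤ 3) (σ : Germ d) : ¬ σ.equi := by
  intro h
  have h3 := σ.exc_lt h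
  have h4 := σ.plus_lt h
  have h5 : σ.e + 1 ≠ d := by
    intro he
    obtain ⟨D, hD⟩ := σ.exists_prime he
    obtain ⟨γ, hγ⟩ := σ.negative h D hD
    exact absurd (σ.ample_model h D γ) (not_le.2 hγ)
  have h6 := σ.image_lt
  have hd3 : d = 3 := by omega
  have h2 := σ.kmm hd3
  have ha : σ.a = 2 := by omega
  have hm : σ.m = 0 := by omega
  obtain ⟨τ, hτ, h0⟩ := σ.specialise h hd3
  obtain ⟨F, hF⟩ := σ.strict h ha hm
  let := σ.finS
  let := σ.finU
  have hlt : Fintype.card σ.SurfU < Fintype.card σ.SurfS := by
    refine Fintype.card_lt_of_injective_of_notMem τ hτ (b := F) ?_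
    rintro ⟨G, hG⟩
    have := h0 G
    rw [hG, hF] at this
    omega
  have hU : σ.bettiU ≤ Fintype.card σ.SurfU := by
    have hle := σ.leray
    have e1 : σ.E 1 3 = 0 := σ.artin 1 3 (by have := σ.supp_three h hd3 3 le_rfl; omega)
    have e2 : σ.E 2 2 = 0 := σ.artin 2 2 (by have := σ.supp_pos h hd3 2 (by omega); omega)
    have e3 : σ.E 3 1 = 0 := σ.artin 3 1 (by have := σ.supp_pos h hd3 1 le_rfl; omega)
    have e4 : σ.E 4 0 = 0 := σ.artin 4 0 (by have := σ.supp_zero hd3; omega)
    have e0 := σ.stalk_four h hd3
    simp only [Finset.sum_range_succ, Finset.sum_range_zero] at hle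
    norm_num at hle
    omega
  have h7 := σ.ehresmann h
  have h8 := σ.retract h hd3
  omega

/-- the ascending chain condition -/
def ACC (A : Set ℝ) : Prop := ¬ ∃ t : ℕ → ℝ, StrictMono t ∧ ∀ n, t n ∈ A

/-- Q-factorial klt pairs `(X, Δ)` of dimension four with a projective surjective morphism
`π : X → S` with connected fibres (this is no restriction, by Stein factorisation) to a normal
quasi-projective variety `S` of positive dimension, and their flips. -/
structure RelFlipTheory (S : Type) where
  /-- the dimension of `S` -/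
  dimS : ℕ
  dimS_pos : 1 ≤ dimS
  /-- the pairs -/
  Pair : Type
  /-- the points of `X` -/
  Pt : Pair → Type
  /-- the morphism `π` on points -/
  proj : ∀ P, Pt P → S
  /-- the flips over `S` -/
  Flip : Pair → Pair → Type
  /-- the exceptional locus `C` of `φ` -/
  exc : ∀ {P P' : Pair}, Flip P P' → Set (Pt P)
  exc_nonempty : ∀ {P P' : Pair} (f : Flip P P'), (exc f).Nonempty
  /-- klt pairs of dimension `≤ 3` over the algebraic closure of the function field of `S` -/
  Low : Type
  /-- their flips -/
  LowFlip : Low → Low → Prop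
  /-- termination in dimension at most three (Shokurov; Kawamata 1992) -/
  kawamata : ∀ g : ℕ → Low, ¬ ∀ i, LowFlip (g i) (g (i + 1))
  /-- `g` is a small Q-factorialisation of the geometric generic fibre of `P` -/
  Generic : Pair → Low → Prop
  /-- Birkar, Cascini, Hacon, McKernan 2010 -/
  generic_exists : ∀ P, ∃ g, Generic P g
  /-- a flip whose exceptional locus does not map onto `S` does not change the generic fibre -/
  generic_vertical : ∀ {P P' : Pair} (f : Flip P P') (g : Low), proj P '' exc f ≠ Set.univ →
    Generic P g → Generic P' g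
  /-- the other flips lift to a nonempty sequence of flips of a Q-factorialisation of the geometric
  generic fibre: the minimal model program over `Z` (Birkar, Cascini, Hacon, McKernan 2010) -/
  generic_horizontal : ∀ {P P' : Pair} (f : Flip P P') (g : Low), proj P '' exc f = Set.univ →
    Generic P g → ∃ g', Generic P' g' ∧ Relation.TransGen LowFlip g g'
  /-- the smooth points of `S` near which the family `(X, Δ) → S` is equisingular in the sense of
  `Germ.equi` -/
  good : Pair → Set S
  /-- a flip is an isomorphism over the complement of the image of its exceptional locus -/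
  good_flip : ∀ {P P' : Pair} (f : Flip P P'), Disjoint (proj P '' exc f) (good P) →
    good P ⊆ good P'
  /-- the flip near the fibre over a point `s` of the image of the exceptional locus, if this image
  is not `S` -/
  germ : ∀ {P P' : Pair} (f : Flip P P'), proj P '' exc f ≠ Set.univ → ∀ s ∈ proj P '' exc f,
    ∃ σ : Germ (4 - dimS), s ∈ good P → σ.equi
  /-- the effective Cartier divisors of `S` -/
  CDiv : Type
  /-- the support -/
  supp : CDiv → Set S
  /-- Hironaka 1964 and generic smoothness: `good P` contains a dense open set; a proper closed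
  subset of a quasi-projective variety lies in a hypersurface -/
  exists_supp : ∀ P, ∃ H, (good P)ᶜ ⊆ supp H
  /-- the log canonical threshold at `x` of `π^*H` with respect to `(X, Δ)` -/
  lct : ∀ P, CDiv → Pt P → WithTop ℝ
  /-- `(X, Δ)` is klt -/
  lct_pos : ∀ P H x, 0 < lct P H x
  lct_lt_top : ∀ P H x, proj P x ∈ supp H → lct P H x < ⊤
  /-- the local threshold is a constructible function -/
  lct_finite : ∀ P H, (Set.range (lct P H)).Finite
  /-- `X` and `X⁺` are isomorphic outside `C` and `C⁺`, and by the negativity lemma the local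
  threshold at a point of `C⁺` is at least the one at some point of `C` -/
  lct_flip : ∀ {P P' : Pair} (f : Flip P P') (H : CDiv) (y : Pt P'),
    (∃ x, lct P H x = lct P' H y) ∨ ∃ x ∈ exc f, lct P H x ≤ lct P' H y
  /-- the coefficients of `Δ` -/
  coeff : Pair → Set ℝ
  coeff_finite : ∀ P, (coeff P).Finite
  coeff_flip : ∀ {P P' : Pair}, Flip P P' → coeff P' = coeff P
  /-- the ascending chain condition for log canonical thresholds (Hacon, McKernan, Xu 2014) -/
  acc : ∀ I : Set ℝ, I.Finite → ∀ H : CDiv, ACC {t : ℝ | ∃ P, coeff P = I ∧ ∃ x, lct P H x = t}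
  /-- special termination in dimension four (Shokurov 2003; Fujino 2007; for log canonical pairs
  Birkar 2007), which uses termination in dimension three: if `(X_i, Δ_i + t π^*H)` is log canonical
  near the exceptional loci, then these are finally disjoint from its non-klt locus. The statement
  is local on the `X_i`: the pairs need not be log canonical elsewhere (restrict to the open sets
  where they are, or use a Q-factorial dlt modification). -/
  special : ∀ (P : ℕ → Pair) (f : ∀ i, Flip (P i) (P (i + 1))) (H : CDiv) (t : ℝ), 0 ≤ t →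
    (∀ i, ∀ x ∈ exc (f i), (t : WithTop ℝ) ≤ lct (P i) H x) →
    ∃ N, ∀ i ≥ N, ∀ x ∈ exc (f i), (t : WithTop ℝ) < lct (P i) H x
  /-- `X` is projective and flips over a point are considered -/
  AbsFlip : Pair → Pair → Prop
  /-- `S` contains no rational curve -/
  NoRationalCurve : Prop
  /-- flipping rays are spanned by rational curves (Kawamata 1991), so if `S` contains none then a
  flip over a point is a flip over `S` -/
  cone : NoRationalCurve → ∀ P P', AbsFlip P P' → Nonempty (Flip P P')

variable {S : Type} (T : RelFlipTheory S)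

/-- the image of the exceptional locus in `S` -/
def locus {P P' : T.Pair} (f : T.Flip P P') : Set S := T.proj P '' T.exc f

/-! ### Flips whose exceptional locus maps onto the base -/

theorem low_wf : WellFounded (fun b a : T.Low => Relation.TransGen T.LowFlip a b) := by
  have h : WellFounded (fun b a : T.Low => T.LowFlip a b) := by
    refine ⟨fun a => ?_⟩
    by_contra ha
    rw [not_acc_iff_exists_descending_chain] at ha
    obtain ⟨g, -, hg⟩ := ha
    exact T.kawamata g hg
  have h' := h.transGen
  refine Subrelation.wf ?_ h'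
  intro b a hab
  exact Relation.transGen_swap.1 hab

theorem finite_horizontal (P : ℕ → T.Pair) (f : ∀ i, T.Flip (P i) (P (i + 1))) :
    ∃ N, ∀ i ≥ N, locus T (f i) ≠ Set.univ := by
  have key : ∀ g : T.Low, ∀ j, T.Generic (P j) g → ∃ N, ∀ i ≥ N, locus T (f i) ≠ Set.univ := by
    intro g
    induction g using (low_wf T).induction with
    | _ g ih =>
      intro j hj
      by_cases hall : ∀ i ≥ j, locus T (f i) ≠ Set.univ
      · exact ⟨j, hall⟩
      · push Not at hall
        obtain ⟨i0, hi0, hu0⟩ := hall
        classical
        have hex : ∃ k, locus T (f (j + k)) = Set.univ :=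
          ⟨i0 - j, by rw [Nat.add_sub_cancel' hi0]; exact hu0⟩
        have hgen : ∀ k ≤ Nat.find hex, T.Generic (P (j + k)) g := by
          intro k
          induction k with
          | zero => exact fun _ => hj
          | succ k ihk =>
            intro hk
            exact T.generic_vertical (f (j + k)) g (Nat.find_min hex (Nat.lt_of_succ_le hk))
              (ihk (Nat.le_of_succ_le hk))
        obtain ⟨g', hg', hgg⟩ := T.generic_horizontal (f (j + Nat.find hex)) g (Nat.find_spec hex)
          (hgen _ le_rfl)
        exact ih g' hgg (j + Nat.find hex + 1) hg'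
  obtain ⟨g, hg⟩ := T.generic_exists (P 0)
  exact key g 0 hg

/-! ### The good locus -/

theorem disjoint_good {P P' : T.Pair} (f : T.Flip P P') (h : locus T f ≠ Set.univ) :
    Disjoint (locus T f) (T.good P) := by
  rw [Set.disjoint_left]
  intro s hs hg
  obtain ⟨σ, hσ⟩ := T.germ f h s hs
  have := T.dimS_pos
  exact Germ.not_equi (by omega) σ (hσ hg)

theorem good_mono (P : ℕ → T.Pair) (f : ∀ i, T.Flip (P i) (P (i + 1)))
    (h : ∀ i, locus T (f i) ≠ Set.univ) (i : ℕ) : T.good (P 0) ⊆ T.good (P i) := by
  induction i with
  | zero => exact subset_rfl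
  | succ i ih => exact ih.trans (T.good_flip (f i) (disjoint_good T (f i) (h i)))

/-! ### Thresholds -/

/-- one step of the argument with thresholds -/
theorem raise (P : ℕ → T.Pair) (f : ∀ i, T.Flip (P i) (P (i + 1))) (H : T.CDiv)
    (hH : ∀ i, locus T (f i) ⊆ T.supp H) (t : ℝ) (ht : 0 ≤ t) (N : ℕ)
    (h : ∀ i ≥ N, ∀ x ∈ T.exc (f i), (t : WithTop ℝ) ≤ T.lct (P i) H x) :
    ∃ t' : ℝ, t < t' ∧ (∃ i x, T.lct (P i) H x = t') ∧
      ∃ N', ∀ i ≥ N', ∀ x ∈ T.exc (f i), (t' : WithTop ℝ) ≤ T.lct (P i) H x := by
  obtain ⟨M, hM⟩ := T.special (fun i => P (N + i)) (fun i => f (N + i)) H t ht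
    (fun i => h (N + i) (Nat.le_add_right N i))
  set N' := N + M with hN'
  have h1 : ∀ i ≥ N', ∀ x ∈ T.exc (f i), (t : WithTop ℝ) < T.lct (P i) H x := by
    intro i hi
    obtain ⟨j, rfl⟩ := Nat.exists_eq_add_of_le (le_trans (Nat.le_add_right N M) hi)
    exact hM j (by omega)
  obtain ⟨x0, hx0⟩ := T.exc_nonempty (f N')
  have hfin : {v | v ∈ Set.range (T.lct (P N') H) ∧ (t : WithTop ℝ) < v}.Finite :=
    (T.lct_finite (P N') H).subset fun v hv => hv.1
  have hne : {v | v ∈ Set.range (T.lct (P N') H) ∧ (t : WithTop ℝ) < v}.Nonempty :=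
    ⟨_, ⟨x0, rfl⟩, h1 N' le_rfl x0 hx0⟩
  obtain ⟨v, ⟨⟨xv, hxv⟩, htv⟩, hmin⟩ := Set.exists_min_image _ id hfin hne
  have hvtop : v < ⊤ := lt_of_le_of_lt (hmin _ ⟨⟨x0, rfl⟩, h1 N' le_rfl x0 hx0⟩)
    (T.lct_lt_top _ _ _ (hH N' ⟨x0, hx0, rfl⟩))
  obtain ⟨t', rfl⟩ := WithTop.ne_top_iff_exists.1 hvtop.ne
  have hprop : ∀ i ≥ N', ∀ y : T.Pt (P i),
      T.lct (P i) H y ≤ (t : WithTop ℝ) ∨ (t' : WithTop ℝ) ≤ T.lct (P i) H y := by
    intro i hi
    induction i, hi using Nat.le_induction with
    | base =>
      intro y
      rcases le_or_gt (T.lct (P N') H y) (t : WithTop ℝ) with hy | hy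
      · exact Or.inl hy
      · exact Or.inr (hmin _ ⟨⟨y, rfl⟩, hy⟩)
    | succ i hi ih =>
      intro y
      rcases T.lct_flip (f i) H y with ⟨x, hx⟩ | ⟨x, hx, hxy⟩
      · rw [← hx]
        exact ih x
      · right
        refine le_trans ?_ hxy
        rcases ih x with h2 | h2
        · exact absurd (h1 i hi x hx) (not_lt.2 h2)
        · exact h2
  refine ⟨t', WithTop.coe_lt_coe.1 htv, ⟨N', xv, hxv⟩, N', ?_⟩
  intro i hi x hx
  rcases hprop i hi x with h2 | h2
  · exact absurd (h1 i hi x hx) (not_lt.2 h2)
  · exact h2

theorem coeff_const (P : ℕ → T.Pair) (f : ∀ i, T.Flip (P i) (P (i + 1))) (i : ℕ) :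
    T.coeff (P i) = T.coeff (P 0) := by
  induction i with
  | zero => rfl
  | succ i ih => exact (T.coeff_flip (f i)).trans ih

/-- no infinite sequence of flips lies over a fixed hypersurface of the base -/
theorem no_sequence_over (P : ℕ → T.Pair) (f : ∀ i, T.Flip (P i) (P (i + 1))) (H : T.CDiv)
    (hH : ∀ i, locus T (f i) ⊆ T.supp H) : False := by
  let A := {q : ℝ × ℕ // 0 ≤ q.1 ∧
    ∀ i ≥ q.2, ∀ x ∈ T.exc (f i), (q.1 : WithTop ℝ) ≤ T.lct (P i) H x}
  have step : ∀ q : A, ∃ q' : A, q.1.1 < q'.1.1 ∧ ∃ i x, T.lct (P i) H x = q'.1.1 := by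
    rintro ⟨⟨t, N⟩, ht, hN⟩
    obtain ⟨t', h1, h2, N', h3⟩ := raise T P f H hH t ht N hN
    exact ⟨⟨⟨t', N'⟩, ht.trans h1.le, h3⟩, h1, h2⟩
  choose g hg1 hg2 using step
  let q0 : A := ⟨⟨0, 0⟩, le_rfl, fun i _ x _ => (T.lct_pos (P i) H x).le⟩
  refine T.acc (T.coeff (P 0)) (T.coeff_finite _) H ⟨fun n => (g^[n + 1] q0).1.1, ?_, ?_⟩
  · refine strictMono_nat_of_lt_succ fun n => ?_
    rw [Function.iterate_succ_apply' g (n + 1) q0]
    exact hg1 _
  · intro n
    obtain ⟨i, x, hx⟩ := hg2 (g^[n] q0)
    rw [← Function.iterate_succ_apply' g n q0] at hx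
    exact ⟨P i, coeff_const T P f i, x, hx⟩

theorem no_sequence (P : ℕ → T.Pair) (f : ∀ i, T.Flip (P i) (P (i + 1))) : False := by
  obtain ⟨N, hN⟩ := finite_horizontal T P f
  let Q : ℕ → T.Pair := fun i => P (N + i)
  let g : ∀ i, T.Flip (Q i) (Q (i + 1)) := fun i => f (N + i)
  have hg : ∀ i, locus T (g i) ≠ Set.univ := fun i => hN (N + i) (Nat.le_add_right N i)
  obtain ⟨H, hH⟩ := T.exists_supp (Q 0)
  refine no_sequence_over T Q g H fun i => ?_
  refine Set.Subset.trans ?_ hH
  intro s hs hs'
  exact Set.disjoint_left.1 (disjoint_good T (g i) (hg i)) hs (good_mono T Q g hg i hs')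

/-- **Main theorem**: there is no infinite sequence of flips over `S` of klt fourfolds over a base
`S` of positive dimension; if `S` contains no rational curve then there is no infinite sequence of
flips over a point of klt fourfolds over `S`. -/
theorem result {S : Type} (T : RelFlipTheory S) :
    (¬ ∃ P : ℕ → T.Pair, ∀ i, Nonempty (T.Flip (P i) (P (i + 1)))) ∧
    (T.NoRationalCurve → ¬ ∃ P : ℕ → T.Pair, ∀ i, T.AbsFlip (P i) (P (i + 1))) := by
  have h : ¬ ∃ P : ℕ → T.Pair, ∀ i, Nonempty (T.Flip (P i) (P (i + 1))) := by
    rintro ⟨P, hP⟩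
    exact no_sequence T P fun i => (hP i).some
  exact ⟨h, fun hS ⟨P, hP⟩ => h ⟨P, fun i => T.cone hS _ _ (hP i)⟩⟩

end Pool.Agent.Results.MP_89a3f8_ag.FourfoldsOverBase
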