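import Mathlib

/-!
# MP_89a3f8_ag: flips of klt pairs over a base, directed by a big divisor or of bounded index

Theorem (`result`): let `X_0 ⇢ X_1 ⇢ ⋯` be a sequence of flips over `S` of klt pairs of dimension
`n` over `S`. Suppose that
* `Δ` is rational, `-(K + Δ)` is big over `S` or, more generally, `(K + Δ_i + M_i) · R_i ≤ 0` for
  all `i`, where `M` is a ℚ-divisor which is big over `S`, and `dim S ≥ n - 4`, or
* `Δ` is rational, `K + Δ` is not pseudo-effective over `S` and `dim S = n - 1`, or
* one multiple `N (K + Δ_i)` is Cartier for infinitely many `i`, and `dim S ≥ n - 3`.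
Then only finitely many of the images `T_i` of the flipping loci in `S` have dimension `≥ n - 5`.
So there is no infinite sequence if `n = 5`, and none, for every `n`, if the fibres over `S` of the
two exceptional loci of each flip have dimensions with sum at most four, for example if all fibres
of all `X_i → S` have dimension at most two.

If `K + Δ` is not pseudo-effective over `S` the first condition holds for the minimal model program
with scaling of any divisor `A` which is big over `S`: then `K + Δ_i + λ_i A_i` is nef over `S` and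
trivial on `R_i`, where `λ_i ≥ τ` for a rational number `τ > 0`, and `M = τ A`.

The published facts used are recorded, one by one, in three structures:

* `Slice d`: the germ of a flip of fivefolds over a transversal slice of the image of its
  exceptional locus;
* `RelFlipTheory S`: Q-factorial klt pairs of dimension five over a base `S` with `dim S ≥ 1`;
* `Tower`: klt pairs of all dimensions over all bases, their restrictions to the inverse images of
  very general hyperplane sections of the base, and Q-factorialisations in dimension five.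

Everything else is proved here:

* under the first condition the local volumes are bounded below and the Cartier indices are bounded
  along a sequence of flips (`index_bounded`), and all images `T_i ≠ S` lie in a fixed proper closed
  subset: it contains the images of the families of rational curves of bounded degree in the fibres
  of `X_0` which do not dominate `S` (`curves_supp`);
* the rigidity lemma (`Slice.not_equi`), used in the other case: in relative dimension at most
  three, if the image of the exceptional locus of a flip is not `S`, then the family has no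
  simultaneous log resolution near the points of this image, so that all images `T_i ≠ S` but
  finitely many lie in the complement of a fixed open set (`good_supp`);
* only finitely many `T_i` are equal to `S` (`finite_horizontal`): flips of the geometric generic
  fibre, of bounded index;
* the argument with the ascending chain condition for local log canonical thresholds, where special
  termination comes from Fujino's termination of canonical fourfold flips and the bounded indices;
* the reduction to `n = 5` by cutting the base.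

Notation: `φ : X → Z`, `φ⁺ : X⁺ → Z` are the two contractions of a flip, `C` and `C⁺` their
exceptional loci; an index `s` denotes the fibre over `s`.
-/

set_option autoImplicit false

namespace Pool.Agent.Results.MP_89a3f8_ag.MildFlipsOverBase

/-- The germ of a flip over a slice: `B` is a smooth variety with a point `s`, `X_B → B` a family
of klt pairs whose fibres have dimension `d`, `φ : X_B → Z_B` a small `(K + Δ)`-negative
contraction over `B` with exceptional locus `C` inside the fibre `X_s`, and `X_B⁺ → Z_B` its flip,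
with exceptional locus `C⁺`. `Y_B → X_B` is a log resolution, `A` an ample divisor of `Z_B`,
`L = K + Δ + φ^*A`, and `z` is the image of a component of `C` of maximal dimension, if this is a
point. -/
structure Slice (d : ℕ) where
  /-- the dimension of `B` -/
  c : ℕ
  /-- the dimension of `C` -/
  a : ℕ
  /-- the dimension of `C⁺` -/
  e : ℕ
  /-- the dimension of `φ(C) = φ⁺(C⁺)` -/
  m : ℕ
  /-- the family is equisingular: `Y_B` and all strata of its exceptional and boundary divisors are
  smooth over `B`, `Y_s → X_s` is birational, `X_s` is irreducible and normal, exceptional divisors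
  are exceptional on the fibres -/
  equi : Prop
  one_le_c : 1 ≤ c
  /-- Kawamata, Matsuda, Matsuki 1987, 5-1-17: `dim C + dim C⁺ ≥ dim X_B - 1` -/
  kmm : c + d ≤ a + e + 1
  /-- the fibres of `C⁺ → φ(C)` have positive dimension (Zariski's main theorem) -/
  image_lt : m + 1 ≤ e
  /-- `C` is a proper closed subset of `X_s`, which is irreducible of dimension `d` -/
  exc_lt : equi → a + 1 ≤ d
  /-- `X_s⁺` is the ample model of the restriction of `L` to `X_s`, hence irreducible of dimension
  `d` (Hacon, McKernan, Xu 2013, invariance of plurigenera for log smooth families), and `C⁺` is a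
  proper closed subset -/
  plus_lt : equi → e + 1 ≤ d
  /-- the prime divisors of `X_s⁺` -/
  PrimeDiv : Type
  /-- the prime divisor is contained in `C⁺` -/
  InPlus : PrimeDiv → Prop
  /-- a closed subset of dimension `d - 1` contains a prime divisor -/
  exists_prime : e + 1 = d → ∃ D, InPlus D
  /-- the families of curves which cover the strict transform of `D` on `X_s` -/
  Family : PrimeDiv → Type
  /-- the degree of `L` on the general member of the family -/
  deg : ∀ D, Family D → ℝ
  /-- the map from a variety to an ample model extracts no divisor, and a divisor of the ample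
  model is not in the fixed part (Hu, Keel 2000, 1.6; Birkar, Cascini, Hacon, McKernan 2010, 3.6) -/
  ample_model : equi → ∀ D γ, 0 ≤ deg D γ
  /-- if `D` lies in `C⁺` then its strict transform on `X_s` is covered by curves contracted by
  `φ`, on which `L = K + Δ` is negative -/
  negative : equi → ∀ D, InPlus D → ∃ γ, deg D γ < 0
  /-- the two-dimensional components of the fibre of `Y_s → Z_s` over `z` -/
  SurfS : Type
  /-- for `u` near `s`, `u ≠ s`, the surfaces in `Y_u` over a small ball around `z` which are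
  contracted to points of `X_u = Z_u` -/
  SurfU : Type
  finS : Fintype SurfS
  finU : Fintype SurfU
  /-- the fourth Betti number of `Y_s` over a small ball around `z` -/
  bettiS : ℕ
  /-- the fourth Betti number of `Y_u` over the same ball -/
  bettiU : ℕ
  /-- Ehresmann 1951: `Y_B → B` is locally trivial over the ball -/
  ehresmann : equi → bettiS = bettiU
  /-- `Y_s` over the ball retracts onto the fibre over `z`, which has dimension at most two -/
  retract : equi → d = 3 → bettiS = Fintype.card SurfS
  /-- the dimensions of the groups `E_2^(p,q) = H^p(Z_u, R^q)` of the Leray spectral sequence of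
  `Y_u → Z_u` over the ball -/
  E : ℕ → ℕ → ℕ
  /-- the dimension of the support of the sheaf `R^q` -/
  suppDim : ℕ → ℕ
  /-- Leray 1946 -/
  leray : bettiU ≤ ∑ p ∈ Finset.range 5, E p (4 - p)
  /-- the vanishing theorem on Stein spaces (Andreotti, Frankel 1959; Artin 1973) -/
  artin : ∀ p q, suppDim q < p → E p q = 0
  supp_zero : d = 3 → suppDim 0 ≤ 3
  /-- `R^q` lives where the fibres of the birational map `Y_u → Z_u` have dimension `≥ q / 2` -/
  supp_pos : equi → d = 3 → ∀ q, 1 ≤ q → suppDim q ≤ 1
  supp_three : equi → d = 3 → ∀ q, 3 ≤ q → suppDim q = 0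
  /-- the stalks of `R^4` are spanned by the surfaces in the fibres -/
  stalk_four : equi → d = 3 → E 0 4 = Fintype.card SurfU
  /-- the dimension of the image in `X_s` -/
  dimIm : SurfS → ℕ
  /-- a contracted surface of `Y_u` is a component of a fibre of an exceptional divisor which is
  smooth over `B`; its specialisation is a component of the fibre over `z` and is contracted to a
  point of `X_s` -/
  specialise : equi → d = 3 → ∃ σ : SurfU → SurfS, Function.Injective σ ∧ ∀ F, dimIm (σ F) = 0
  /-- the strict transform of a surface of `C` contracted to `z` -/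
  strict : equi → a = 2 → m = 0 → ∃ F, dimIm F = 2

/-- **Rigidity lemma**: in relative dimension at most three the family is not equisingular. -/
theorem Slice.not_equi {d : ℕ} (hd : d ≤ 3) (σ : Slice d) : ¬ σ.equi := by
  intro h
  have h1 := σ.one_le_c
  have h2 := σ.kmm
  have h3 := σ.exc_lt h
  have h4 := σ.plus_lt h
  have h5 : σ.e + 1 ≠ d := by
    intro he
    obtain ⟨D, hD⟩ := σ.exists_prime he
    obtain ⟨γ, hγ⟩ := σ.negative h D hD
    exact absurd (σ.ample_model h D γ) (not_le.2 hγ)
  have h6 := σ.image_lt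
  have hd3 : d = 3 := by omega
  have ha : σ.a = 2 := by omega
  have hm : σ.m = 0 := by omega
  obtain ⟨τ, hτ, h0⟩ := σ.specialise h hd3
  obtain ⟨F, hF⟩ := σ.strict h ha hm
  let := σ.finS
  let := σ.finU
  have hlt : Fintype.card σ.SurfU < Fintype.card σ.SurfS := by
    refine Fintype.card_lt_of_injective_of_notMem τ hτ (b := F) ?_
    rintro ⟨G, hG⟩
    have := h0 G
    rw [hG, hF] at this
    omega
  have hU : σ.bettiU ≤ Fintype.card σ.SurfU := by
    have hle := σ.leray
    have e1 : σ.E 1 3 = 0 := σ.artin 1 3 (by have := σ.supp_three h hd3 3 le_rfl; omega)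
    have e2 : σ.E 2 2 = 0 := σ.artin 2 2 (by have := σ.supp_pos h hd3 2 (by omega); omega)
    have e3 : σ.E 3 1 = 0 := σ.artin 3 1 (by have := σ.supp_pos h hd3 1 le_rfl; omega)
    have e4 : σ.E 4 0 = 0 := σ.artin 4 0 (by have := σ.supp_zero hd3; omega)
    have e0 := σ.stalk_four h hd3
    simp only [Finset.sum_range_succ, Finset.sum_range_zero] at hle
    norm_num at hle
    omega
  have h7 := σ.ehresmann h
  have h8 := σ.retract h hd3
  omega

/-- the ascending chain condition -/
def ACC (A : Set ℝ) : Prop := ¬ ∃ t : ℕ → ℝ, StrictMono t ∧ ∀ n, t n ∈ A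

/-- paths for the transitive closure -/
theorem path_of_transGen {α : Type} (r : α → α → Prop) {a b : α} (h : Relation.TransGen r a b) :
    ∃ (l : ℕ) (p : ℕ → α), 0 < l ∧ p 0 = a ∧ p l = b ∧ ∀ j < l, r (p j) (p (j + 1)) := by
  induction h with
  | single hab =>
    rename_i b
    refine ⟨1, fun j => if j = 0 then a else b, one_pos, rfl, rfl, fun j hj => ?_⟩
    have : j = 0 := by omega
    subst this
    exact hab
  | tail _ hbc ih =>
    rename_i b c _
    obtain ⟨l, p, hl, h0, hb, hp⟩ := ih
    refine ⟨l + 1, fun j => if j ≤ l then p j else c, Nat.succ_pos l, ?_, ?_, fun j hj => ?_⟩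
    · simp [h0]
    · simp
    · rcases Nat.lt_succ_iff_lt_or_eq.1 hj with h | h
      · have h1 : j ≤ l := h.le
        have h2 : j + 1 ≤ l := h
        simp only [h1, h2, if_true]
        exact hp j h
      · subst h
        simp only [le_refl, if_true, Nat.not_succ_le_self, if_false]
        rw [hb]
        exact hbc

/-- chains for the transitive closure can be refined -/
theorem refine_chain {α : Type} (r : α → α → Prop) (c : ℕ → α)
    (h : ∀ i, Relation.TransGen r (c i) (c (i + 1))) :
    ∃ (d : ℕ → α) (κ : ℕ → ℕ), StrictMono κ ∧ κ 0 = 0 ∧ (∀ i, d (κ i) = c i) ∧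
      ∀ j, r (d j) (d (j + 1)) := by
  choose l p hl h0 hb hp using fun i => path_of_transGen r (h i)
  let nx : ℕ × ℕ → ℕ × ℕ := fun s => if s.2 + 1 < l s.1 then (s.1, s.2 + 1) else (s.1 + 1, 0)
  let st : ℕ → ℕ × ℕ := fun t => nx^[t] (0, 0)
  have hst : ∀ t, st (t + 1) = nx (st t) := fun t => Function.iterate_succ_apply' nx t (0, 0)
  have hinv : ∀ t, (st t).2 < l (st t).1 := by
    intro t
    induction t with
    | zero => exact hl 0
    | succ t ih =>
      rw [hst]
      by_cases hc : (st t).2 + 1 < l (st t).1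
      · simp only [nx, hc, if_true]
      · simp only [nx, hc, if_false]
        exact hl _
  have hgo : ∀ i t, st t = (i, 0) → ∀ k < l i, st (t + k) = (i, k) := by
    intro i t ht k
    induction k with
    | zero => exact fun _ => ht
    | succ k ih =>
      intro hk
      have h1 := ih (by omega)
      have h2 : st (t + (k + 1)) = nx (st (t + k)) := hst (t + k)
      rw [h2, h1]
      simp only [nx, hk, if_true]
  have hgo' : ∀ i t, st t = (i, 0) → st (t + l i) = (i + 1, 0) := by
    intro i t ht
    have h1 := hgo i t ht (l i - 1) (by have := hl i; omega)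
    have h2 : t + l i = t + (l i - 1) + 1 := by have := hl i; omega
    rw [h2, hst, h1]
    have h3 : ¬ (l i - 1 + 1 < l i) := by omega
    simp only [nx, h3, if_false]
  let κ : ℕ → ℕ := fun i => Nat.rec 0 (fun i k => k + l i) i
  have hκ : ∀ i, κ (i + 1) = κ i + l i := fun i => rfl
  have hκs : ∀ i, st (κ i) = (i, 0) := by
    intro i
    induction i with
    | zero => rfl
    | succ i ih =>
      rw [hκ]
      exact hgo' i _ ih
  refine ⟨fun t => p (st t).1 (st t).2, κ, strictMono_nat_of_lt_succ fun i => ?_, rfl,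
    fun i => ?_, fun t => ?_⟩
  · rw [hκ]
    have := hl i
    omega
  · change p (st (κ i)).1 (st (κ i)).2 = c i
    rw [hκs]
    exact h0 i
  · have h1 := hp (st t).1 (st t).2 (hinv t)
    change r (p (st t).1 (st t).2) (p (st (t + 1)).1 (st (t + 1)).2)
    rw [hst]
    by_cases hc : (st t).2 + 1 < l (st t).1
    · simp only [nx, hc, if_true]
      exact h1
    · have h2 : (st t).2 + 1 = l (st t).1 := by have := hinv t; omega
      simp only [nx, hc, if_false]
      rw [h2, hb] at h1
      rw [h0]
      exact h1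

/-- Q-factorial klt pairs `(X, Δ)` of dimension five with a projective surjective morphism
`π : X → S` with connected fibres (this is no restriction, by Stein factorisation) to a normal
quasi-projective variety `S` of positive dimension, with the Zariski topology, and their flips. -/
structure RelFlipTheory (S : Type) [TopologicalSpace S] where
  /-- `S` is irreducible -/
  irreducible : IrreducibleSpace S
  /-- the dimension of `S` -/
  dimS : ℕ
  one_le_dimS : 1 ≤ dimS
  /-- the pairs, with a marked ℚ-divisor `M` -/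
  Pair : Type
  /-- the points of `X` -/
  Pt : Pair → Type
  /-- the morphism `π` on points -/
  proj : ∀ P, Pt P → S
  /-- the flips over `S`; the marked divisor of `X⁺` is the transform of `M` -/
  Flip : Pair → Pair → Type
  /-- the exceptional locus `C` of `φ` -/
  exc : ∀ {P P' : Pair}, Flip P P' → Set (Pt P)
  exc_nonempty : ∀ {P P' : Pair} (f : Flip P P'), (exc f).Nonempty
  /-- `π` is a closed map -/
  closed_image : ∀ {P P' : Pair} (f : Flip P P'), IsClosed (proj P '' exc f)
  /-- `Δ` is rational and `M` is big over `S` -/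
  Big : Pair → Prop
  big_flip : ∀ {P P' : Pair}, Flip P P' → Big P → Big P'
  /-- `(K + Δ + M) · R ≤ 0` for the flipping ray `R`, that is `M ≡ c (K + Δ)` over `Z` with
  `c ≥ -1` -/
  Adm : ∀ {P P' : Pair}, Flip P P' → Prop
  /-- the smooth points of `S` near which the family `(X, Δ) → S` is equisingular in the sense of
  `Slice.equi` -/
  good : Pair → Set S
  good_open : ∀ P, IsOpen (good P)
  /-- Hironaka 1964 and generic smoothness -/
  good_nonempty : ∀ P, (good P).Nonempty
  /-- a flip is an isomorphism over the complement of the image of its exceptional locus -/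
  good_flip : ∀ {P P' : Pair} (f : Flip P P'), Disjoint (proj P '' exc f) (good P) →
    good P ⊆ good P'
  /-- if the image of the exceptional locus is not `S` but meets the open set `good P`, then cutting
  with general hyperplane sections through a general point of it gives an equisingular slice -/
  slice : 2 ≤ dimS → ∀ {P P' : Pair} (f : Flip P P'), proj P '' exc f ≠ Set.univ →
    (proj P '' exc f ∩ good P).Nonempty → ∃ σ : Slice (5 - dimS), σ.equi
  /-- the effective Cartier divisors of `S` -/
  CDiv : Type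
  /-- the support -/
  supp : CDiv → Set S
  /-- a proper closed subset of a quasi-projective variety lies in a hypersurface -/
  exists_supp : ∀ Z : Set S, IsClosed Z → Z ≠ Set.univ → ∃ H, Z ⊆ supp H
  /-- If `M` is big over `S` write it as `A + E`, `A` ample over `S`, `E ≥ 0`, and let
  `0 < δ ≤ 1` be such that `(X, Δ + δ E)` is klt. Then `kltFib P` is a dense open set of smooth
  points of `S` over which the fibres of `(X, Δ + δ E)` are klt. -/
  kltFib : Pair → Set S
  kltFib_open : ∀ P, IsOpen (kltFib P)
  kltFib_nonempty : ∀ P, (kltFib P).Nonempty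
  /-- the rational curves of `A`-degree at most `2 dim X_s / δ` in the fibres `X_s`, where `s` is in
  `kltFib P` -/
  Curve : Pair → Type
  /-- the point `s` -/
  pt : ∀ P, Curve P → S
  /-- the irreducible components of the scheme of these curves, which is of finite type -/
  Comp : Pair → Type
  comp_finite : ∀ P, Finite (Comp P)
  comp : ∀ P, Curve P → Comp P
  comp_irreducible : ∀ P (c : Comp P), IsPreirreducible (pt P '' {Γ | comp P Γ = c})
  /-- the strict transform on `X_i` of the curve `Γ` of `X_0` is contracted by `φ_i` -/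
  Contracted : ∀ {P₀ P P' : Pair}, Flip P P' → Curve P₀ → Prop
  /-- Let `s` be in `T_i` but not in `T_j` for `j < i`, so that `X_i = X_0` near the fibre over `s`.
  Since `K + Δ` and `K + Δ + M` are not positive on the curves contracted by `φ_i`, nor is
  `K + Δ + δ M`. So `-(K + Δ + δ E) = δ A - (K + Δ + δ M)` is ample over `Z_i`, and some rational
  curve `Γ` in `X_s` is contracted by `φ_i` and `δ A · Γ ≤ -(K + Δ + δ E) · Γ ≤ 2 dim X_s`
  (Kawamata 1991). -/
  bend : ∀ (P : ℕ → Pair) (f : ∀ i, Flip (P i) (P (i + 1))), Big (P 0) → (∀ i, Adm (f i)) → ∀ i,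
    ∀ s ∈ kltFib (P 0), s ∈ proj (P i) '' exc (f i) → (∀ j < i, s ∉ proj (P j) '' exc (f j)) →
    ∃ Γ : Curve (P 0), pt (P 0) Γ = s ∧ Contracted (f i) Γ
  /-- the degree of the pull-back of an ample divisor of `Z_i` is constant in an irreducible family
  of curves, over the open set where `X_i = X_0` -/
  family : ∀ (P : ℕ → Pair) (f : ∀ i, Flip (P i) (P (i + 1))) (i) (Γ Γ' : Curve (P 0)),
    comp (P 0) Γ = comp (P 0) Γ' → (∀ j < i, pt (P 0) Γ ∉ proj (P j) '' exc (f j)) →
    (∀ j < i, pt (P 0) Γ' ∉ proj (P j) '' exc (f j)) → Contracted (f i) Γ → Contracted (f i) Γ'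
  /-- contracted curves lie in the exceptional locus -/
  contracted : ∀ (P : ℕ → Pair) (f : ∀ i, Flip (P i) (P (i + 1))) (i) (Γ : Curve (P 0)),
    (∀ j < i, pt (P 0) Γ ∉ proj (P j) '' exc (f j)) → Contracted (f i) Γ →
    pt (P 0) Γ ∈ proj (P i) '' exc (f i)
  /-- the log canonical threshold at `x` of `π^*H` with respect to `(X, Δ)` -/
  lct : ∀ P, CDiv → Pt P → WithTop ℝ
  /-- `(X, Δ)` is klt -/
  lct_pos : ∀ P H x, 0 < lct P H x
  lct_lt_top : ∀ P H x, proj P x ∈ supp H → lct P H x < ⊤
  /-- the local threshold is a constructible function -/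
  lct_finite : ∀ P H, (Set.range (lct P H)).Finite
  /-- `X` and `X⁺` are isomorphic outside `C` and `C⁺`, and by the negativity lemma the local
  threshold at a point of `C⁺` is at least the one at some point of `C` -/
  lct_flip : ∀ {P P' : Pair} (f : Flip P P') (H : CDiv) (y : Pt P'),
    (∃ x, lct P H x = lct P' H y) ∨ ∃ x ∈ exc f, lct P H x ≤ lct P' H y
  /-- the coefficients of `Δ` -/
  coeff : Pair → Set ℝ
  coeff_finite : ∀ P, (coeff P).Finite
  coeff_flip : ∀ {P P' : Pair}, Flip P P' → coeff P' = coeff P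
  /-- the ascending chain condition for log canonical thresholds (Hacon, McKernan, Xu 2014) -/
  acc : ∀ I : Set ℝ, I.Finite → ∀ H : CDiv, ACC {t : ℝ | ∃ P, coeff P = I ∧ ∃ x, lct P H x = t}
  /-- thresholds with respect to rational boundaries are rational -/
  lct_rational : ∀ P H x (t : ℝ), (∀ a ∈ coeff P, ∃ q : ℚ, (q : ℝ) = a) → lct P H x = t →
    ∃ q : ℚ, (q : ℝ) = t
  /-- `N > 0` and `N (K + Δ)` is Cartier -/
  Index : Pair → ℕ → Prop
  rational_of_index : ∀ P N, Index P N → ∀ a ∈ coeff P, ∃ q : ℚ, (q : ℝ) = a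
  /-- the dlt pairs with rational boundary of dimension at most four induced on log canonical
  centres, and the klt pairs of dimension `5 - dimS` with rational boundary over the algebraic
  closure of the function field of `S` -/
  Cen : Type
  /-- their flips whose exceptional loci lie where the pair is klt -/
  CenFlip : Cen → Cen → Prop
  /-- `N > 0` and `N (K + Δ)` is Cartier on the centre -/
  CenIndex : Cen → ℕ → Prop
  cenIndex_pos : ∀ c N, CenIndex c N → 0 < N
  /-- the number of exceptional divisors over the klt locus with log discrepancy at most one, and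
  the sum of their log discrepancies -/
  low : Cen → ℕ
  lowSum : Cen → ℝ
  /-- all log discrepancies are multiples of `1 / N` -/
  lowSum_mem : ∀ c N, CenIndex c N → ∃ k : ℕ, N * lowSum c = k
  /-- log discrepancies do not decrease, so no new divisor has log discrepancy at most one -/
  low_flip : ∀ c c', CenFlip c c' → low c' ≤ low c
  /-- if their number stays the same then so do the divisors, and their log discrepancies do not
  decrease -/
  lowSum_flip : ∀ c c', CenFlip c c' → low c' = low c → lowSum c ≤ lowSum c'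
  lowSum_le : ∀ c, lowSum c ≤ low c
  /-- Kawamata 1992 in dimension at most three, Fujino 2004 (termination of canonical fourfold flips)
  in dimension four: flips which do not change the log discrepancies at most one lift to flips of
  the Q-factorial terminalisations over the klt locus (Birkar, Cascini, Hacon, McKernan 2010).
  Fujino's proof also works over a base and on an open set: the difficulty is local, and for the
  flips of type `(2, 1)` the homology group may be replaced by its part of weight `-4`. -/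
  fujino : ∀ c : ℕ → Cen, (∀ i, low (c (i + 1)) = low (c i)) →
    (∀ i, lowSum (c (i + 1)) = lowSum (c i)) → ¬ ∀ i, CenFlip (c i) (c (i + 1))
  /-- `g` is a small Q-factorialisation of the geometric generic fibre of `P` -/
  Generic : Pair → Cen → Prop
  /-- Birkar, Cascini, Hacon, McKernan 2010 -/
  generic_exists : ∀ P, (∀ a ∈ coeff P, ∃ q : ℚ, (q : ℝ) = a) → ∃ g, Generic P g
  /-- a flip whose exceptional locus does not map onto `S` does not change the generic fibre -/
  generic_vertical : ∀ {P P' : Pair} (f : Flip P P') (g : Cen), proj P '' exc f ≠ Set.univ →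
    Generic P g → Generic P' g
  /-- the other flips lift to a nonempty sequence of flips of a Q-factorialisation of the geometric
  generic fibre: the minimal model program over `Z` (Birkar, Cascini, Hacon, McKernan 2010) -/
  generic_horizontal : ∀ {P P' : Pair} (f : Flip P P') (g : Cen), proj P '' exc f = Set.univ →
    Generic P g → ∃ g', Generic P' g' ∧ Relation.TransGen CenFlip g g'
  /-- the log canonical divisor of the Q-factorialisation is the pull-back of `K + Δ` -/
  generic_index : ∀ P g N, Generic P g → Index P N → CenIndex g N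
  /-- special termination (Shokurov 2003; Fujino 2007; for log canonical pairs Birkar 2007): if
  `(X_i, Δ_i + t π^*H)` is log canonical near the exceptional loci of a sequence of flips, `Δ_i` and
  `t` are rational, and infinitely many loci meet its non-klt locus, then some log canonical centre
  of a dlt modification has an infinite sequence of flips. Those of its members which belong to dlt
  modifications of the `(X_i, Δ_i + t π^*H)` with `N (K + Δ_i)` Cartier have bounded indices, by
  adjunction. -/
  special : ∀ (P : ℕ → Pair) (f : ∀ i, Flip (P i) (P (i + 1))) (H : CDiv) (t : ℝ), 0 ≤ t →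
    (∃ q : ℚ, (q : ℝ) = t) → (∃ N, ∀ j, ∃ i ≥ j, Index (P i) N) →
    (∀ i, ∀ x ∈ exc (f i), (t : WithTop ℝ) ≤ lct (P i) H x) →
    (∀ N, ∃ i ≥ N, ∃ x ∈ exc (f i), lct (P i) H x = t) →
    ∃ c : ℕ → Cen, (∀ i, CenFlip (c i) (c (i + 1))) ∧ ∃ N', ∀ j, ∃ i ≥ j, CenIndex (c i) N'
  /-- the divisorial valuations with centre on `X` -/
  Val : Type
  /-- the log discrepancy -/
  ld : Pair → Val → ℝ
  /-- the supremum of the orders of vanishing of the members of a graded linear series of `M` of
  positive volume, which comes from a compactification; it is the same series for all pairs of a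
  sequence of flips -/
  ord : Pair → Val → ℝ
  ord_nonneg : ∀ P v, Big P → 0 ≤ ord P v
  /-- the negativity lemma; the orders of vanishing of the same sections change by `-c` times the
  change of the log discrepancy, where `M ≡ c (K + Δ)` over `Z` and `c ≥ -1` -/
  ld_flip : ∀ {P P' : Pair} (f : Flip P P'), Big P → Adm f → ∀ v,
    ld P v ≤ ld P' v ∧ ord P' v - ord P v ≤ ld P' v - ld P v
  /-- the alpha invariant of a klt pair is positive -/
  alpha : ∀ P, Big P → ∃ a : ℝ, 0 < a ∧ ∀ v, a * ord P v ≤ ld P v
  /-- the volume of the series -/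
  vol : Pair → ℝ
  vol_pos : ∀ P, Big P → 0 < vol P
  vol_flip : ∀ {P P' : Pair}, Flip P P' → Big P → vol P' = vol P
  /-- the local volume of the singularity (Li 2018) -/
  lvol : ∀ P, Pt P → ℝ
  /-- the local-to-global inequality (Fujita 2018; Liu 2018) -/
  liu : ∀ P (a : ℝ), Big P → 0 < a → (∀ v, a * ord P v ≤ ld P v) →
    ∀ x, a ^ 5 * vol P ≤ lvol P x
  /-- the local Cartier indices of Weil divisors are at most `5 ^ 5 / lvol` (Xu, Zhuang 2021) -/
  xu_zhuang : ∀ (I : Set ℝ) (δ : ℝ), 0 < δ → ∃ N, ∀ P, coeff P = I →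
    (∀ a ∈ I, ∃ q : ℚ, (q : ℝ) = a) → (∀ x, δ ≤ lvol P x) → Index P N
  big_rational : ∀ P, Big P → ∀ a ∈ coeff P, ∃ q : ℚ, (q : ℝ) = a

variable {S : Type} [TopologicalSpace S] (T : RelFlipTheory S)

/-- the image of the exceptional locus in `S` -/
def locus {P P' : T.Pair} (f : T.Flip P P') : Set S := T.proj P '' T.exc f

/-! ### Flips whose exceptional locus does not map onto the base -/

/-- **The images lie over a fixed hypersurface** if the flips are directed by a divisor which is big
over `S`. -/
theorem curves_supp (P : ℕ → T.Pair) (f : ∀ i, T.Flip (P i) (P (i + 1))) (h0 : T.Big (P 0))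
    (hadm : ∀ i, T.Adm (f i)) (h : ∀ i, locus T (f i) ≠ Set.univ) :
    ∃ H, ∀ i, locus T (f i) ⊆ T.supp H := by
  have := T.irreducible
  have := T.comp_finite (P 0)
  let Z : T.Comp (P 0) → Set S := fun c => T.pt (P 0) '' {Γ | T.comp (P 0) Γ = c}
  let B : Set (T.Comp (P 0)) := {c | closure (Z c) ≠ Set.univ}
  let G : Set S := (T.kltFib (P 0))ᶜ ∪ ⋃ c ∈ B, closure (Z c)
  have hcl : IsClosed (⋃ c ∈ B, closure (Z c)) :=
    (Set.toFinite B).isClosed_biUnion fun c _ => isClosed_closure
  have hGcl : IsClosed G := (T.kltFib_open (P 0)).isClosed_compl.union hcl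
  -- `G` is a proper subset
  have hprop : ∀ A : Set (T.Comp (P 0)), A.Finite → A ⊆ B → (⋃ c ∈ A, closure (Z c)) ≠ Set.univ := by
    intro A hA
    induction A, hA using Set.Finite.induction_on with
    | empty =>
      intro _ he
      simp only [Set.mem_empty_iff_false, Set.iUnion_of_empty, Set.iUnion_empty] at he
      exact (Set.univ_nonempty (α := S)).ne_empty he.symm
    | @insert c A hc hA ih =>
      intro hAB he
      rw [Set.biUnion_insert] at he
      have hcl' : IsClosed (⋃ c ∈ A, closure (Z c)) :=
        hA.isClosed_biUnion fun c _ => isClosed_closure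
      rcases (isPreirreducible_iff_isClosed_union_isClosed.1
        (PreirreducibleSpace.isPreirreducible_univ (X := S))) _ _ isClosed_closure hcl'
        he.ge with h1 | h1
      · exact hAB (Set.mem_insert c A) (Set.univ_subset_iff.1 h1)
      · exact ih (fun x hx => hAB (Set.mem_insert_of_mem c hx)) (Set.univ_subset_iff.1 h1)
  have hG : G ≠ Set.univ := by
    intro he
    rcases (isPreirreducible_iff_isClosed_union_isClosed.1
      (PreirreducibleSpace.isPreirreducible_univ (X := S))) _ _
      (T.kltFib_open (P 0)).isClosed_compl hcl he.ge with h1 | h1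
    · obtain ⟨s, hs⟩ := T.kltFib_nonempty (P 0)
      exact h1 (Set.mem_univ s) hs
    · exact hprop B (Set.toFinite B) subset_rfl (Set.univ_subset_iff.1 h1)
  obtain ⟨H, hH⟩ := T.exists_supp G hGcl hG
  refine ⟨H, fun i => ?_⟩
  refine Set.Subset.trans ?_ hH
  induction i using Nat.strong_induction_on with
  | _ i ih =>
    intro s hs
    by_contra hsG
    have hklt : s ∈ T.kltFib (P 0) := by
      by_contra hk
      exact hsG (Or.inl hk)
    have hj : ∀ j < i, s ∉ locus T (f j) := fun j hji hsj => hsG (ih j hji hsj)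
    obtain ⟨Γ, hΓ, hc⟩ := T.bend P f h0 hadm i s hklt hs hj
    have hZ : closure (Z (T.comp (P 0) Γ)) = Set.univ := by
      by_contra hne
      refine hsG (Or.inr (Set.mem_biUnion (show T.comp (P 0) Γ ∈ B from hne) ?_))
      exact subset_closure ⟨Γ, rfl, hΓ⟩
    -- the part of the family over the open set where nothing has happened yet
    have hUo : IsOpen (⋃ j ∈ Finset.range i, locus T (f j))ᶜ :=
      (isClosed_biUnion_finset fun j _ => T.closed_image (f j)).isOpen_compl
    have hsub : Z (T.comp (P 0) Γ) ∩ (⋃ j ∈ Finset.range i, locus T (f j))ᶜ ⊆ locus T (f i) := by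
      rintro x ⟨⟨Γ', hΓ', rfl⟩, hx⟩
      have hx' : ∀ j < i, T.pt (P 0) Γ' ∉ locus T (f j) := fun j hji hxj =>
        hx (Set.mem_biUnion (Finset.mem_coe.2 (Finset.mem_range.2 hji)) hxj)
      exact T.contracted P f i Γ' hx' (T.family P f i Γ Γ' hΓ'.symm (by rw [hΓ]; exact hj) hx' hc)
    have hdense : Z (T.comp (P 0) Γ) ⊆ locus T (f i) := by
      by_contra hcon
      obtain ⟨x, hxZ, hx⟩ := Set.not_subset.1 hcon
      have hirr := T.comp_irreducible (P 0) (T.comp (P 0) Γ)
      obtain ⟨y, hyZ, hy1, hy2⟩ := hirr _ _ hUo (T.closed_image (f i)).isOpen_compl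
        ⟨s, ⟨Γ, rfl, hΓ⟩, fun hsU => by
          obtain ⟨j, hji, hsj⟩ := Set.mem_iUnion₂.1 hsU
          exact hj j (Finset.mem_range.1 hji) hsj⟩ ⟨x, hxZ, hx⟩
      exact hy2 (hsub ⟨hyZ, hy1⟩)
    refine h i (Set.univ_subset_iff.1 ?_)
    rw [← hZ]
    exact (T.closed_image (f i)).closure_subset_iff.2 hdense

/-! ### The good locus -/

theorem disjoint_good (h2 : 2 ≤ T.dimS) {P P' : T.Pair} (f : T.Flip P P')
    (h : locus T f ≠ Set.univ) : Disjoint (locus T f) (T.good P) := by
  by_contra hd
  rw [Set.disjoint_iff_inter_eq_empty, ← Ne, ← Set.nonempty_iff_ne_empty] at hd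
  obtain ⟨σ, hσ⟩ := T.slice h2 f h hd
  exact Slice.not_equi (by omega) σ hσ

theorem good_mono (h2 : 2 ≤ T.dimS) (P : ℕ → T.Pair) (f : ∀ i, T.Flip (P i) (P (i + 1)))
    (h : ∀ i, locus T (f i) ≠ Set.univ) (i : ℕ) : T.good (P 0) ⊆ T.good (P i) := by
  induction i with
  | zero => exact subset_rfl
  | succ i ih => exact ih.trans (T.good_flip (f i) (disjoint_good T h2 (f i) (h i)))

/-- the images lie over a fixed hypersurface if `dim S ≥ 2` -/
theorem good_supp (h2 : 2 ≤ T.dimS) (P : ℕ → T.Pair) (f : ∀ i, T.Flip (P i) (P (i + 1)))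
    (h : ∀ i, locus T (f i) ≠ Set.univ) : ∃ H, ∀ i, locus T (f i) ⊆ T.supp H := by
  obtain ⟨H, hH⟩ := T.exists_supp (T.good (P 0))ᶜ (T.good_open (P 0)).isClosed_compl fun he => by
    obtain ⟨s, hs⟩ := T.good_nonempty (P 0)
    exact (he.ge (Set.mem_univ s)) hs
  refine ⟨H, fun i => Set.Subset.trans ?_ hH⟩
  intro s hs hs'
  exact Set.disjoint_left.1 (disjoint_good T h2 (f i) (h i)) hs (good_mono T h2 P f h i hs')

theorem coeff_const (P : ℕ → T.Pair) (f : ∀ i, T.Flip (P i) (P (i + 1))) (i : ℕ) :
    T.coeff (P i) = T.coeff (P 0) := by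
  induction i with
  | zero => rfl
  | succ i ih => exact (T.coeff_flip (f i)).trans ih

/-! ### Bounded Cartier indices -/

theorem index_bounded (P : ℕ → T.Pair) (f : ∀ i, T.Flip (P i) (P (i + 1))) (h0 : T.Big (P 0))
    (hadm : ∀ i, T.Adm (f i)) : ∃ N, ∀ i, T.Index (P i) N := by
  have hbig : ∀ i, T.Big (P i) := by
    intro i
    induction i with
    | zero => exact h0
    | succ i ih => exact T.big_flip (f i) ih
  have hvol : ∀ i, T.vol (P i) = T.vol (P 0) := by
    intro i
    induction i with
    | zero => rfl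
    | succ i ih => exact (T.vol_flip (f i) (hbig i)).trans ih
  obtain ⟨a0, ha0, halpha⟩ := T.alpha (P 0) h0
  set a := min a0 1 with ha
  have hapos : 0 < a := lt_min ha0 one_pos
  have hkeep : ∀ i v, a * T.ord (P i) v ≤ T.ld (P i) v := by
    intro i
    induction i with
    | zero =>
      intro v
      exact (mul_le_mul_of_nonneg_right (min_le_left _ _) (T.ord_nonneg _ _ h0)).trans (halpha v)
    | succ i ih =>
      intro v
      obtain ⟨h1, h2⟩ := T.ld_flip (f i) (hbig i) (hadm i) v
      have h3 : a * (T.ld (P (i + 1)) v - T.ld (P i) v) ≤ T.ld (P (i + 1)) v - T.ld (P i) v :=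
        mul_le_of_le_one_left (sub_nonneg.2 h1) (min_le_right _ _)
      have h4 := ih v
      have h5 : a * (T.ord (P (i + 1)) v - T.ord (P i) v) ≤
          a * (T.ld (P (i + 1)) v - T.ld (P i) v) := mul_le_mul_of_nonneg_left h2 hapos.le
      rw [mul_sub] at h5
      linarith
  have hδ : 0 < a ^ 5 * T.vol (P 0) := mul_pos (pow_pos hapos 5) (T.vol_pos _ h0)
  obtain ⟨N, hN⟩ := T.xu_zhuang (T.coeff (P 0)) _ hδ
  refine ⟨N, fun i => hN (P i) (coeff_const T P f i) (T.big_rational _ h0) fun x => ?_⟩
  rw [← hvol i]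
  exact T.liu (P i) a (hbig i) hapos (hkeep i) x

/-! ### Thresholds -/

theorem eventually_const (u : ℕ → ℕ) (h : Antitone u) : ∃ N, ∀ i ≥ N, u i = u N := by
  obtain ⟨N, hN⟩ := Nat.sInf_mem (Set.range_nonempty u)
  refine ⟨N, fun i hi => le_antisymm (h hi) ?_⟩
  rw [hN]
  exact Nat.sInf_le ⟨i, rfl⟩

/-- no infinite sequence of flips of log canonical centres has a subsequence of bounded index -/
theorem no_cen (c : ℕ → T.Cen) (hc : ∀ i, T.CenFlip (c i) (c (i + 1))) (N : ℕ)
    (hN : ∀ j, ∃ i ≥ j, T.CenIndex (c i) N) : False := by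
  -- the number of divisors is finally constant
  have hanti : Antitone fun i => T.low (c i) :=
    antitone_nat_of_succ_le fun i => T.low_flip _ _ (hc i)
  obtain ⟨i0, hlow⟩ := eventually_const _ hanti
  -- then the sum of the log discrepancies is monotone and bounded
  have hmono : ∀ i ≥ i0, ∀ j ≥ i, T.lowSum (c i) ≤ T.lowSum (c j) := by
    intro i hi j hj
    induction j, hj using Nat.le_induction with
    | base => exact le_rfl
    | succ j hj ih =>
      exact ih.trans (T.lowSum_flip _ _ (hc j) ((hlow (j + 1) (by omega)).trans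
        (hlow j (by omega)).symm))
  have hbd : ∀ i ≥ i0, T.lowSum (c i) ≤ T.low (c i0) := by
    intro i hi
    have h1 := T.lowSum_le (c i)
    rwa [hlow i hi] at h1
  -- and it lies in `(1 / N) ℤ` infinitely often
  have hN0 : 0 < (N : ℝ) := by
    obtain ⟨i, -, hi⟩ := hN 0
    exact_mod_cast T.cenIndex_pos (c i) N hi
  let K : Set ℕ := {k | ∃ i ≥ i0, T.CenIndex (c i) N ∧ (N : ℝ) * T.lowSum (c i) = k}
  have hKb : ∀ k ∈ K, k ≤ N * T.low (c i0) := by
    rintro k ⟨i, hi, -, hk⟩
    have h2 : (N : ℝ) * T.lowSum (c i) ≤ N * T.low (c i0) :=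
      mul_le_mul_of_nonneg_left (hbd i hi) hN0.le
    rw [hk] at h2
    exact_mod_cast h2
  have hKne : K.Nonempty := by
    obtain ⟨i, hi, hidx⟩ := hN i0
    obtain ⟨k, hk⟩ := T.lowSum_mem _ _ hidx
    exact ⟨k, i, hi, hidx, hk⟩
  have hKf : K.Finite := (Set.finite_Iic (N * T.low (c i0))).subset hKb
  obtain ⟨m, ⟨j0, hj0, -, hm⟩, hmax⟩ := Set.exists_max_image K id hKf hKne
  have hconst : ∀ i ≥ j0, T.lowSum (c i) = T.lowSum (c j0) := by
    intro i hi
    refine le_antisymm ?_ (hmono j0 hj0 i hi)
    obtain ⟨i', hi', hidx⟩ := hN i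
    refine (hmono i (by omega) i' hi').trans ?_
    obtain ⟨k, hk⟩ := T.lowSum_mem _ _ hidx
    have h1 : k ≤ m := hmax k ⟨i', by omega, hidx, hk⟩
    have h2 : (N : ℝ) * T.lowSum (c i') ≤ N * T.lowSum (c j0) := by
      rw [hk, hm]
      exact_mod_cast h1
    exact le_of_mul_le_mul_left h2 hN0
  refine T.fujino (fun i => c (j0 + i)) (fun i => ?_) (fun i => ?_) fun i => hc (j0 + i)
  · exact (hlow _ (by omega)).trans (hlow _ (by omega)).symm
  · exact (hconst _ (by omega)).trans (hconst _ (by omega)).symm

/-- infinitely many members have bounded index -/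
def Bdd (P : ℕ → T.Pair) : Prop := ∃ N, ∀ j, ∃ i ≥ j, T.Index (P i) N

theorem Bdd.tail {P : ℕ → T.Pair} (h : Bdd T P) (k : ℕ) : Bdd T fun i => P (k + i) := by
  obtain ⟨N, hN⟩ := h
  refine ⟨N, fun j => ?_⟩
  obtain ⟨i, hi, h1⟩ := hN (k + j)
  obtain ⟨l, rfl⟩ := Nat.exists_eq_add_of_le (le_trans (Nat.le_add_right k j) hi)
  exact ⟨l, by omega, h1⟩

theorem Bdd.rational {P : ℕ → T.Pair} (h : Bdd T P) (f : ∀ i, T.Flip (P i) (P (i + 1))) (i : ℕ) :
    ∀ a ∈ T.coeff (P i), ∃ q : ℚ, (q : ℝ) = a := by
  obtain ⟨N, hN⟩ := h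
  obtain ⟨k, -, hk⟩ := hN 0
  rw [coeff_const T P f i, ← coeff_const T P f k]
  exact T.rational_of_index _ _ hk

/-- only finitely many flips have an exceptional locus which maps onto the base -/
theorem finite_horizontal (P : ℕ → T.Pair) (hP : Bdd T P)
    (f : ∀ i, T.Flip (P i) (P (i + 1))) : ∃ N, ∀ i ≥ N, locus T (f i) ≠ Set.univ := by
  classical
  by_contra hcon
  push Not at hcon
  obtain ⟨N, hN⟩ := hP
  obtain ⟨g0, hg0⟩ := T.generic_exists (P 0) (Bdd.rational T ⟨N, hN⟩ f 0)
  have step : ∀ i, ∀ g, T.Generic (P i) g → ∃ g', T.Generic (P (i + 1)) g' ∧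
      Relation.ReflTransGen T.CenFlip g g' ∧
      (locus T (f i) = Set.univ → Relation.TransGen T.CenFlip g g') := by
    intro i g hg
    by_cases h : locus T (f i) = Set.univ
    · obtain ⟨g', h1, h2⟩ := T.generic_horizontal (f i) g h hg
      exact ⟨g', h1, h2.to_reflTransGen, fun _ => h2⟩
    · exact ⟨g, T.generic_vertical (f i) g h hg, Relation.ReflTransGen.refl, fun h' => absurd h' h⟩
  choose st hst1 hst2 hst3 using step
  let c : ∀ i, {g // T.Generic (P i) g} := fun i =>
    Nat.rec ⟨g0, hg0⟩ (fun i g => ⟨st i g.1 g.2, hst1 i g.1 g.2⟩) i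
  have hc1 : ∀ i, Relation.ReflTransGen T.CenFlip (c i).1 (c (i + 1)).1 :=
    fun i => hst2 i (c i).1 (c i).2
  have hc2 : ∀ i, locus T (f i) = Set.univ → Relation.TransGen T.CenFlip (c i).1 (c (i + 1)).1 :=
    fun i => hst3 i (c i).1 (c i).2
  have hle : ∀ i j, i ≤ j → Relation.ReflTransGen T.CenFlip (c i).1 (c j).1 := by
    intro i j hij
    induction j, hij using Nat.le_induction with
    | base => exact Relation.ReflTransGen.refl
    | succ j _ ih => exact ih.trans (hc1 j)
  have next : ∀ m, ∃ m', T.Index (P m') N ∧ Relation.TransGen T.CenFlip (c m).1 (c m').1 := by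
    intro m
    obtain ⟨i, hi, hu⟩ := hcon m
    obtain ⟨m', hm', hidx⟩ := hN (i + 1)
    exact ⟨m', hidx, (Relation.TransGen.trans_right (hle m i hi) (hc2 i hu)).trans_left
      (hle (i + 1) m' hm')⟩
  choose nx hnx1 hnx2 using next
  let e : ℕ → ℕ := fun k => nx^[k] 0
  have he : ∀ k, e (k + 1) = nx (e k) := fun k => Function.iterate_succ_apply' nx k 0
  have hchain : ∀ k, Relation.TransGen T.CenFlip (c (e k)).1 (c (e (k + 1))).1 := by
    intro k
    rw [he]
    exact hnx2 (e k)
  obtain ⟨d, κ, hκ, -, hd, hr⟩ := refine_chain T.CenFlip (fun k => (c (e k)).1) hchain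
  refine no_cen T d hr N fun j => ⟨κ (j + 1), le_trans (Nat.le_succ j) hκ.le_apply, ?_⟩
  rw [hd]
  refine T.generic_index (P (e (j + 1))) _ N (c (e (j + 1))).2 ?_
  rw [he]
  exact hnx1 (e j)

theorem special_termination (P : ℕ → T.Pair) (hP : Bdd T P)
    (f : ∀ i, T.Flip (P i) (P (i + 1))) (H : T.CDiv) (t : ℝ) (ht : 0 ≤ t)
    (hr : ∃ q : ℚ, (q : ℝ) = t)
    (h : ∀ i, ∀ x ∈ T.exc (f i), (t : WithTop ℝ) ≤ T.lct (P i) H x) :
    ∃ N, ∀ i ≥ N, ∀ x ∈ T.exc (f i), (t : WithTop ℝ) < T.lct (P i) H x := by
  by_contra hcon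
  have hcon' : ∀ N, ∃ i ≥ N, ∃ x ∈ T.exc (f i), T.lct (P i) H x = t := by
    intro N
    by_contra hN
    refine hcon ⟨N, fun i hi x hx => lt_of_le_of_ne (h i x hx) fun he => ?_⟩
    exact hN ⟨i, hi, x, hx, he.symm⟩
  obtain ⟨c, hc, N', hN'⟩ := T.special P f H t ht hr hP h hcon'
  exact no_cen T c hc N' hN'

/-- one step of the argument with thresholds -/
theorem raise (P : ℕ → T.Pair) (hP : Bdd T P) (f : ∀ i, T.Flip (P i) (P (i + 1))) (H : T.CDiv)
    (hH : ∀ i, locus T (f i) ⊆ T.supp H) (t : ℝ) (ht : 0 ≤ t) (hr : ∃ q : ℚ, (q : ℝ) = t) (N : ℕ)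
    (h : ∀ i ≥ N, ∀ x ∈ T.exc (f i), (t : WithTop ℝ) ≤ T.lct (P i) H x) :
    ∃ t' : ℝ, t < t' ∧ (∃ q : ℚ, (q : ℝ) = t') ∧ (∃ i x, T.lct (P i) H x = t') ∧
      ∃ N', ∀ i ≥ N', ∀ x ∈ T.exc (f i), (t' : WithTop ℝ) ≤ T.lct (P i) H x := by
  have hP' : Bdd T (fun i => P (N + i)) := hP.tail T N
  obtain ⟨M, hM⟩ := special_termination T (fun i => P (N + i)) hP' (fun i => f (N + i)) H t ht hr
    (fun i => h (N + i) (Nat.le_add_right N i))
  set N' := N + M with hN'
  have h1 : ∀ i ≥ N', ∀ x ∈ T.exc (f i), (t : WithTop ℝ) < T.lct (P i) H x := by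
    intro i hi
    obtain ⟨j, rfl⟩ := Nat.exists_eq_add_of_le (le_trans (Nat.le_add_right N M) hi)
    exact hM j (by omega)
  obtain ⟨x0, hx0⟩ := T.exc_nonempty (f N')
  have hfin : {v | v ∈ Set.range (T.lct (P N') H) ∧ (t : WithTop ℝ) < v}.Finite :=
    (T.lct_finite (P N') H).subset fun v hv => hv.1
  have hne : {v | v ∈ Set.range (T.lct (P N') H) ∧ (t : WithTop ℝ) < v}.Nonempty :=
    ⟨_, ⟨x0, rfl⟩, h1 N' le_rfl x0 hx0⟩
  obtain ⟨v, ⟨⟨xv, hxv⟩, htv⟩, hmin⟩ := Set.exists_min_image _ id hfin hne
  have hvtop : v < ⊤ := lt_of_le_of_lt (hmin _ ⟨⟨x0, rfl⟩, h1 N' le_rfl x0 hx0⟩)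
    (T.lct_lt_top _ _ _ (hH N' ⟨x0, hx0, rfl⟩))
  obtain ⟨t', rfl⟩ := WithTop.ne_top_iff_exists.1 hvtop.ne
  have hprop : ∀ i ≥ N', ∀ y : T.Pt (P i),
      T.lct (P i) H y ≤ (t : WithTop ℝ) ∨ (t' : WithTop ℝ) ≤ T.lct (P i) H y := by
    intro i hi
    induction i, hi using Nat.le_induction with
    | base =>
      intro y
      rcases le_or_gt (T.lct (P N') H y) (t : WithTop ℝ) with hy | hy
      · exact Or.inl hy
      · exact Or.inr (hmin _ ⟨⟨y, rfl⟩, hy⟩)
    | succ i hi ih =>
      intro y
      rcases T.lct_flip (f i) H y with ⟨x, hx⟩ | ⟨x, hx, hxy⟩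
      · rw [← hx]
        exact ih x
      · right
        refine le_trans ?_ hxy
        rcases ih x with h2 | h2
        · exact absurd (h1 i hi x hx) (not_lt.2 h2)
        · exact h2
  have hadm : ∃ q : ℚ, (q : ℝ) = t' := T.lct_rational (P N') H xv t' (hP.rational T f N') hxv
  refine ⟨t', WithTop.coe_lt_coe.1 htv, hadm, ⟨N', xv, hxv⟩, N', ?_⟩
  intro i hi x hx
  rcases hprop i hi x with h2 | h2
  · exact absurd (h1 i hi x hx) (not_lt.2 h2)
  · exact h2

/-- no infinite sequence of flips lies over a fixed hypersurface of the base -/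
theorem no_sequence_over (P : ℕ → T.Pair) (hP : Bdd T P) (f : ∀ i, T.Flip (P i) (P (i + 1)))
    (H : T.CDiv) (hH : ∀ i, locus T (f i) ⊆ T.supp H) : False := by
  let A := {q : ℝ × ℕ // 0 ≤ q.1 ∧ (∃ r : ℚ, (r : ℝ) = q.1) ∧
    ∀ i ≥ q.2, ∀ x ∈ T.exc (f i), (q.1 : WithTop ℝ) ≤ T.lct (P i) H x}
  have step : ∀ q : A, ∃ q' : A, q.1.1 < q'.1.1 ∧ ∃ i x, T.lct (P i) H x = q'.1.1 := by
    rintro ⟨⟨t, N⟩, ht, hr, hN⟩
    obtain ⟨t', h1, hr', h2, N', h3⟩ := raise T P hP f H hH t ht hr N hN
    exact ⟨⟨⟨t', N'⟩, ht.trans h1.le, hr', h3⟩, h1, h2⟩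
  choose g hg1 hg2 using step
  let q0 : A := ⟨⟨0, 0⟩, le_rfl, ⟨0, Rat.cast_zero⟩, fun i _ x _ => (T.lct_pos (P i) H x).le⟩
  refine T.acc (T.coeff (P 0)) (T.coeff_finite _) H ⟨fun n => (g^[n + 1] q0).1.1, ?_, ?_⟩
  · refine strictMono_nat_of_lt_succ fun n => ?_
    rw [Function.iterate_succ_apply' g (n + 1) q0]
    exact hg1 _
  · intro n
    obtain ⟨i, x, hx⟩ := hg2 (g^[n] q0)
    rw [← Function.iterate_succ_apply' g n q0] at hx
    exact ⟨P i, coeff_const T P f i, x, hx⟩

theorem no_sequence (P : ℕ → T.Pair) (f : ∀ i, T.Flip (P i) (P (i + 1)))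
    (hP : (T.Big (P 0) ∧ ∀ i, T.Adm (f i)) ∨ (2 ≤ T.dimS ∧ Bdd T P)) : False := by
  have hB : Bdd T P := by
    rcases hP with h | h
    · obtain ⟨M, hM⟩ := index_bounded T P f h.1 h.2
      exact ⟨M, fun j => ⟨j, le_rfl, hM j⟩⟩
    · exact h.2
  obtain ⟨N, hN⟩ := finite_horizontal T P hB f
  let Q : ℕ → T.Pair := fun i => P (N + i)
  let g : ∀ i, T.Flip (Q i) (Q (i + 1)) := fun i => f (N + i)
  have hg : ∀ i, locus T (g i) ≠ Set.univ := fun i => hN (N + i) (Nat.le_add_right N i)
  have hbig : T.Big (P 0) → ∀ i, T.Big (P i) := by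
    intro h i
    induction i with
    | zero => exact h
    | succ i ih => exact T.big_flip (f i) ih
  obtain ⟨H, hH⟩ : ∃ H, ∀ i, locus T (g i) ⊆ T.supp H := by
    rcases hP with h | h
    · exact curves_supp T Q g (hbig h.1 N) (fun i => h.2 (N + i)) hg
    · exact good_supp T h.1 Q g hg
  exact no_sequence_over T Q (hB.tail T N) g H hH

/-! ### All dimensions -/

/-- Klt pairs `(X, Δ)` of all dimensions with projective surjective morphisms `π : X → S` with
connected fibres to normal quasi-projective varieties, over the complex numbers (this is no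
restriction, since a sequence of flips is defined over a countable field). -/
structure Tower where
  /-- the bases -/
  Base : Type
  dim : Base → ℕ
  /-- the closed points, with the Zariski topology -/
  Pts : Base → Type
  zariski : ∀ S : Base, TopologicalSpace (Pts S)
  /-- the klt pairs of dimension `n` over `S`, with a marked ℚ-divisor `M`; they need not be
  Q-factorial -/
  Pair : ℕ → Base → Type
  /-- the flips `φ : X → Z`, `φ⁺ : X⁺ → Z` over `S`: `φ` and `φ⁺` are small and not isomorphisms,
  `-(K + Δ)` is `φ`-ample, `K + Δ⁺` is `φ⁺`-ample; the relative Picard number is arbitrary; the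
  marked divisor of `X⁺` is the transform of `M` -/
  Flip : ∀ {n : ℕ} {S : Base}, Pair n S → Pair n S → Type
  /-- the dimension of the image `T` of the exceptional locus in `S` -/
  dimT : ∀ {n : ℕ} {S : Base} {P P' : Pair n S}, Flip P P' → ℕ
  /-- the largest dimension of a fibre of `C → S` -/
  fC : ∀ {n : ℕ} {S : Base} {P P' : Pair n S}, Flip P P' → ℕ
  /-- the largest dimension of a fibre of `C⁺ → S` -/
  fC' : ∀ {n : ℕ} {S : Base} {P P' : Pair n S}, Flip P P' → ℕ
  /-- Kawamata, Matsuda, Matsuki 1987, 5-1-17: if `k` is the dimension of the fibre of `φ` over a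
  point `z` of `φ(C)` then the dimension of `C⁺` near the fibre over `z` is at least `n - 1 - k`;
  it is at most `dim T` plus the dimension of the fibres of `C⁺ → S` -/
  kmm : ∀ {n : ℕ} {S : Base} {P P' : Pair n S} (f : Flip P P'),
    n ≤ fC f + fC' f + dimT f + 1
  /-- `Δ` is rational and `M` is ℚ-Cartier and big over `S` -/
  Big : ∀ {n : ℕ} {S : Base}, Pair n S → Prop
  /-- `M` is ℚ-Cartier and `M ≡ c (K + Δ)` over `Z` with `c ≥ -1`; if the relative Picard number of
  `X → Z` is one this means `(K + Δ + M) · R ≤ 0` for the flipping ray `R` -/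
  Adm : ∀ {n : ℕ} {S : Base} {P P' : Pair n S}, Flip P P' → Prop
  /-- `M = -(K + Δ)` -/
  Anti : ∀ {n : ℕ} {S : Base}, Pair n S → Prop
  /-- the transform of `-(K + Δ)` -/
  anti_flip : ∀ {n : ℕ} {S : Base} {P P' : Pair n S}, Flip P P' → Anti P → Anti P'
  /-- here `c = -1` -/
  anti_adm : ∀ {n : ℕ} {S : Base} {P P' : Pair n S} (f : Flip P P'), Anti P → Adm f
  /-- `Δ` is rational and `K + Δ` is not pseudo-effective over `S` -/
  NotPseff : ∀ {n : ℕ} {S : Base}, Pair n S → Prop
  /-- if the general fibres are curves, divisors of negative degree are anti-big -/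
  anti_big : ∀ {n : ℕ} {S : Base}, n = dim S + 1 → ∀ P : Pair n S, Anti P → NotPseff P → Big P
  /-- `N > 0` and `N (K + Δ)` is Cartier -/
  Index : ∀ {n : ℕ} {S : Base}, Pair n S → ℕ → Prop
  /-- `P'` is the restriction of `P` to a very general hyperplane section `S'` of `S` -/
  Res : ∀ {n : ℕ} {S S' : Base}, Pair (n + 1) S → Pair n S' → Prop
  res_big : ∀ {n : ℕ} {S S' : Base} (P : Pair (n + 1) S) (P' : Pair n S'), Res P P' →
    Big P → Big P'
  /-- `K_(X') + Δ'` is the restriction of `K_X + Δ + X'` to the Cartier divisor `X'` -/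
  res_index : ∀ {n : ℕ} {S S' : Base} (P : Pair (n + 1) S) (P' : Pair n S') (N : ℕ), Res P P' →
    Index P N → Index P' N
  /-- Bertini: let `S'` be a very general hyperplane section of `S`, `dim S ≥ 2`. The restrictions
  of the `X_i` to `S'` are klt pairs over `S'` (general members of a base point free linear system),
  the restrictions of the diagrams `X_i → Z_i ← X_(i+1)` are flips if `S'` meets `T_i`, i.e. if
  `dim T_i ≥ 1`, and then the dimension of `T_i` drops by one; otherwise they are isomorphisms, and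
  are omitted. There are countably many conditions on `S'`. If `M ≡ c (K + Δ)` over `Z` then the
  same holds for the restrictions, since `K_(X') + Δ'` is the restriction of `K_X + Δ + X'`. -/
  cut : ∀ {n : ℕ} {S : Base} (P : ℕ → Pair (n + 1) S) (f : ∀ i, Flip (P i) (P (i + 1))),
    2 ≤ dim S → (∀ N, ∃ i ≥ N, 1 ≤ dimT (f i)) →
    ∃ (S' : Base) (P' : ℕ → Pair n S') (g : ∀ j, Flip (P' j) (P' (j + 1))) (ι : ℕ → ℕ),
      dim S' + 1 = dim S ∧ (∀ i, 1 ≤ dimT (f i) ↔ ∃ j, ι j = i) ∧ StrictMono ι ∧
      (∀ i j, i ≤ ι j → (∀ j' < j, ι j' < i) → Res (P i) (P' j)) ∧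
      (∀ j, dimT (g j) + 1 = dimT (f (ι j))) ∧ ∀ j, Adm (f (ι j)) → Adm (g j)
  /-- the Q-factorial klt pairs of dimension five over `S` -/
  five : ∀ S : Base, 1 ≤ dim S → @RelFlipTheory (Pts S) (zariski S)
  five_dim : ∀ (S : Base) (h : 1 ≤ dim S), (five S h).dimS = dim S
  /-- `Q` is a small Q-factorialisation of `P` -/
  Model : ∀ {S : Base} (h : 1 ≤ dim S), Pair 5 S → (five S h).Pair → Prop
  /-- Birkar, Cascini, Hacon, McKernan 2010 -/
  model_exists : ∀ {S : Base} (h : 1 ≤ dim S) (P : Pair 5 S), ∃ Q, Model h P Q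
  /-- the minimal model program over `Z` with scaling, which starts with a Q-factorialisation of
  `X`, consists of flips, at least one, and ends with a Q-factorialisation of `X⁺` (Birkar, Cascini,
  Hacon, McKernan 2010); if `M ≡ c (K + Δ)` over `Z` then this holds in all its steps -/
  model_flip : ∀ {S : Base} (h : 1 ≤ dim S) {P P' : Pair 5 S} (f : Flip P P') (Q),
    Model h P Q → ∃ Q', Model h P' Q' ∧
      Relation.TransGen (fun A B => ∃ g : (five S h).Flip A B, Adm f → (five S h).Adm g) Q Q'
  /-- `K_Y + Δ_Y` and `M_Y` are the pull-backs of `K_X + Δ` and of `M` to the Q-factorialisation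
  `Y` -/
  model_big : ∀ {S : Base} (h : 1 ≤ dim S) (P : Pair 5 S) (Q), Model h P Q → Big P →
    (five S h).Big Q
  model_index : ∀ {S : Base} (h : 1 ≤ dim S) (P : Pair 5 S) (Q) (N : ℕ), Model h P Q →
    Index P N → (five S h).Index Q N
  /-- flips over a point, for projective `X` -/
  AbsFlip : ∀ {n : ℕ} {S : Base}, Pair n S → Pair n S → Type
  /-- `S` contains no rational curve -/
  NoRationalCurve : Base → Prop
  /-- flipping rays are spanned by rational curves (Kawamata 1991), so if `S` contains none then a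
  flip over a point is a flip over `S` -/
  cone : ∀ {n : ℕ} {S : Base}, NoRationalCurve S → ∀ {P P' : Pair n S}, AbsFlip P P' → Flip P P'

/-- the sequences considered, in dimension `m + 5`: directed by a big divisor and `dim S ≥ m + 1`,
or one multiple of `K + Δ_i` is Cartier for infinitely many `i` and `dim S ≥ m + 2` -/
def Mild (U : Tower) (m : ℕ) {n : ℕ} {S : U.Base} (P : ℕ → U.Pair n S)
    (f : ∀ i, U.Flip (P i) (P (i + 1))) : Prop :=
  (m + 1 ≤ U.dim S ∧ U.Big (P 0) ∧ ∀ i, U.Adm (f i)) ∨
    (m + 2 ≤ U.dim S ∧ ∃ N, ∀ j, ∃ i ≥ j, U.Index (P i) N)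

/-- there is no infinite mild sequence of flips in dimension five -/
theorem no_five (U : Tower) {S : U.Base} (P : ℕ → U.Pair 5 S)
    (f : ∀ i, U.Flip (P i) (P (i + 1))) (hP : Mild U 0 P f) : False := by
  classical
  have h : 1 ≤ U.dim S := by
    rcases hP with h | h
    · exact h.1
    · exact le_trans (by omega) h.1
  let := U.zariski S
  obtain ⟨Q0, hQ0⟩ := U.model_exists h (P 0)
  let r : (U.five S h).Pair → (U.five S h).Pair → Prop := fun A B =>
    ∃ g : (U.five S h).Flip A B, (∀ i, U.Adm (f i)) → (U.five S h).Adm g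
  have step : ∀ i, ∀ Q, U.Model h (P i) Q → ∃ Q', U.Model h (P (i + 1)) Q' ∧
      Relation.TransGen r Q Q' := by
    intro i Q hQ
    obtain ⟨Q', h1, h2⟩ := U.model_flip h (f i) Q hQ
    exact ⟨Q', h1, h2.lift id fun A B ⟨g, hg⟩ => ⟨g, fun hall => hg (hall i)⟩⟩
  choose g hg1 hg2 using step
  let c : ∀ i, {Q // U.Model h (P i) Q} := fun i =>
    Nat.rec ⟨Q0, hQ0⟩ (fun i Q => ⟨g i Q.1 Q.2, hg1 i Q.1 Q.2⟩) i
  have hc : ∀ i, Relation.TransGen r (c i).1 (c (i + 1)).1 := fun i => hg2 i (c i).1 (c i).2
  obtain ⟨d, κ, hκ, hκ0, hd, hr⟩ := refine_chain _ (fun i => (c i).1) hc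
  choose fd hfd using hr
  refine no_sequence (U.five S h) d fd ?_
  rcases hP with ⟨-, hP, hadm⟩ | ⟨h2, N, hN⟩
  · refine Or.inl ⟨?_, fun j => hfd j hadm⟩
    rw [← hκ0, hd]
    exact U.model_big h _ _ (c 0).2 hP
  · refine Or.inr ⟨by rw [U.five_dim]; omega, N, fun j => ?_⟩
    obtain ⟨i, hi, h1⟩ := hN j
    refine ⟨κ i, hi.trans hκ.le_apply, ?_⟩
    rw [hd]
    exact U.model_index h _ _ N (c i).2 h1

/-- only finitely many flips have an image of dimension at least `n - 5` in `S` -/
theorem bound (U : Tower) (m : ℕ) : ∀ {S : U.Base} (P : ℕ → U.Pair (m + 5) S)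
    (f : ∀ i, U.Flip (P i) (P (i + 1))) (_ : Mild U m P f), ∃ N, ∀ i ≥ N, U.dimT (f i) < m := by
  induction m with
  | zero =>
    intro S P f hP
    exact (no_five U P f hP).elim
  | succ m ih =>
    intro S P f hP
    by_contra hcon
    push Not at hcon
    have hinf : ∀ N, ∃ i ≥ N, 1 ≤ U.dimT (f i) := fun N => by
      obtain ⟨i, hi, hm⟩ := hcon N
      exact ⟨i, hi, by omega⟩
    have hS : 2 ≤ U.dim S := by
      rcases hP with h | h
      · exact le_trans (by omega) h.1
      · exact le_trans (by omega) h.1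
    obtain ⟨S', P', g, ι, hS', hι, hmono, hres, hdim, hadm⟩ := U.cut (n := m + 5) P f hS hinf
    have hP' : Mild U m P' g := by
      rcases hP with ⟨h1, hP, hall⟩ | ⟨h1, N, hN⟩
      · exact Or.inl ⟨by omega,
          U.res_big _ _ (hres 0 0 (Nat.zero_le _) (fun j hj => by omega)) hP,
          fun j => hadm j (hall _)⟩
      · refine Or.inr ⟨by omega, N, fun j => ?_⟩
        obtain ⟨i, hi, h1⟩ := hN (ι j)
        classical
        have hex : ∃ k, i ≤ ι k := ⟨i, hmono.le_apply⟩
        refine ⟨Nat.find hex, ?_, U.res_index _ _ N (hres i _ (Nat.find_spec hex)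
          fun j' hj' => not_le.1 (Nat.find_min hex hj')) h1⟩
        by_contra hlt
        have h2 := hmono (not_le.1 hlt)
        have h3 := Nat.find_spec hex
        omega
    obtain ⟨N, hN⟩ := ih (S := S') P' g hP'
    obtain ⟨i, hi, hm⟩ := hcon (ι N)
    obtain ⟨j, rfl⟩ := (hι i).1 (by omega)
    have hj : N ≤ j := hmono.le_iff_le.1 hi
    have h1 := hN j hj
    have h2 := hdim j
    omega

/-- one step: a flip over `S` or, if `S` contains no rational curve, a flip over a point -/
inductive Step (U : Tower) {n : ℕ} {S : U.Base} (P P' : U.Pair n S) : Type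
  | over (f : U.Flip P P') : Step U P P'
  | point (h : U.NoRationalCurve S) (f : U.AbsFlip P P') : Step U P P'

/-- it is a flip over `S` in both cases -/
def Step.flip {U : Tower} {n : ℕ} {S : U.Base} {P P' : U.Pair n S} : Step U P P' → U.Flip P P'
  | .over f => f
  | .point h f => U.cone h f

/-- the hypothesis of the main theorem: `Δ` is rational, `M` is a ℚ-divisor which is big over `S`,
`M = -(K + Δ)` or `(K + Δ_i + M_i) · R_i ≤ 0` for all `i`, and `dim S ≥ n - 4`; or `Δ` is rational,
`M = -(K + Δ)`, `K + Δ` is not pseudo-effective over `S` and `dim S = n - 1`; or one multiple of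
`K + Δ_i` is Cartier for infinitely many `i` and `dim S ≥ n - 3` -/
def Hyp (U : Tower) {n : ℕ} {S : U.Base} (P : ℕ → U.Pair n S)
    (f : ∀ i, U.Flip (P i) (P (i + 1))) : Prop :=
  (n ≤ U.dim S + 4 ∧ U.Big (P 0) ∧ (U.Anti (P 0) ∨ ∀ i, U.Adm (f i))) ∨
    (n = U.dim S + 1 ∧ U.Anti (P 0) ∧ U.NotPseff (P 0)) ∨
    (n ≤ U.dim S + 3 ∧ ∃ N, ∀ j, ∃ i ≥ j, U.Index (P i) N)

/-- **Main theorem**: let `n ≥ 5`. In an infinite sequence of flips over `S` of klt pairs of
dimension `n` which satisfies `Hyp` only finitely many flips have an image `T` of dimension at least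
`n - 5` in `S`. So there is no such sequence if `n = 5`, and none, for every `n`, if the fibres over
`S` of the exceptional loci `C` and `C⁺` of each flip have dimensions with sum at most four. -/
theorem result (U : Tower) {n : ℕ} (hn : 5 ≤ n) {S : U.Base} (P : ℕ → U.Pair n S)
    (f : ∀ i, Step U (P i) (P (i + 1))) (h : Hyp U P fun i => (f i).flip) :
    {i | n ≤ U.dimT (f i).flip + 5}.Finite ∧
    ¬ (n = 5 ∨ ∀ i, U.fC (f i).flip + U.fC' (f i).flip ≤ 4) := by
  obtain ⟨m, rfl⟩ := Nat.exists_eq_add_of_le hn
  revert P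
  rw [Nat.add_comm 5 m]
  intro P f h
  have h1 : {i | m + 5 ≤ U.dimT (f i).flip + 5}.Finite := by
    have hanti : U.Anti (P 0) → ∀ i, U.Adm (f i).flip := by
      intro h1 i
      have h2 : ∀ i, U.Anti (P i) := by
        intro i
        induction i with
        | zero => exact h1
        | succ i ih => exact U.anti_flip (f i).flip ih
      exact U.anti_adm _ (h2 i)
    have hP' : Mild U m P fun i => (f i).flip := by
      rcases h with ⟨h, h1, h2⟩ | ⟨h, h1, h2⟩ | ⟨h, h'⟩
      · exact Or.inl ⟨by omega, h1, h2.elim hanti id⟩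
      · exact Or.inl ⟨by omega, U.anti_big h _ h1 h2, hanti h1⟩
      · exact Or.inr ⟨by omega, h'⟩
    obtain ⟨N, hN⟩ := bound U m P (fun i => (f i).flip) hP'
    refine (Set.finite_lt_nat N).subset fun i hi => ?_
    by_contra hcon
    have h2 := hN i (not_lt.1 hcon)
    have h3 : m + 5 ≤ U.dimT (f i).flip + 5 := hi
    omega
  refine ⟨h1, fun h0 => Set.infinite_univ (h1.subset fun i _ => ?_)⟩
  change m + 5 ≤ U.dimT (f i).flip + 5
  rcases h0 with h0 | h0
  · omega
  · have h3 := U.kmm (f i).flip
    have h4 := h0 i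
    omega

end Pool.Agent.Results.MP_89a3f8_ag.MildFlipsOverBase
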