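import Mathlib

/-!
# MP_89a3f8_ag: termination for products of pairs and for crepant images of products

`MMPTheory` records the facts used about Q-factorial klt pairs `(X, Δ)` over some base `S`
(`X → S` projective) and the steps of minimal model programs over `S`. Everything else is proved
here.
-/

set_option autoImplicit false

namespace Pool.Agent.Results.MP_89a3f8_ag.ProductsAndImages

universe u

/-- Q-factorial klt pairs over a base and the steps of their minimal model programs. -/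
structure MMPTheory where
  /-- Q-factorial klt pairs `(X, Δ) → S`, `dim X = d`, up to isomorphism -/
  Pair : ℕ → Type u
  /-- `Flip P P'`: `P'` is the flip over `S` of a `(K_X + Δ)`-negative extremal ray of `P` -/
  Flip : ∀ {d : ℕ}, Pair d → Pair d → Prop
  /-- `Div P P'`: `P'` is the divisorial contraction over `S` of such a ray -/
  Div : ∀ {d : ℕ}, Pair d → Pair d → Prop
  /-- `K_X + Δ` is pseudo-effective over `S` -/
  Pseff : ∀ {d : ℕ}, Pair d → Prop
  /-- the relative Picard number `ρ(X/S)` -/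
  rho : ∀ {d : ℕ}, Pair d → ℕ
  rho_flip : ∀ {d : ℕ} (P P' : Pair d), Flip P P' → rho P' = rho P
  rho_div : ∀ {d : ℕ} (P P' : Pair d), Div P P' → rho P' < rho P
  /-- dimension at most three (Shokurov, Kawamata) -/
  low : ∀ {d : ℕ}, d ≤ 3 → ∀ s : ℕ → Pair d, ¬ ∀ i, Flip (s i) (s (i + 1))
  /-- `(X₁ × X₂, Δ₁ × X₂ + X₁ × Δ₂) → S₁ × S₂` -/
  prod : ∀ {a b : ℕ}, Pair a → Pair b → Pair (a + b)
  /-- the flips of a product are the flips of the factors -/
  prod_flip : ∀ {a b : ℕ} (P : Pair a) (Q : Pair b) (R : Pair (a + b)), Flip (prod P Q) R ↔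
    (∃ P', Flip P P' ∧ R = prod P' Q) ∨ ∃ Q', Flip Q Q' ∧ R = prod P Q'
  prod_div : ∀ {a b : ℕ} (P : Pair a) (Q : Pair b) (R : Pair (a + b)), Div (prod P Q) R ↔
    (∃ P', Div P P' ∧ R = prod P' Q) ∨ ∃ Q', Div Q Q' ∧ R = prod P Q'
  prod_pseff : ∀ {a b : ℕ} (P : Pair a) (Q : Pair b), Pseff (prod P Q) ↔ Pseff P ∧ Pseff Q
  /-- `ℙ¹` over a point -/
  line : Pair 1
  line_pseff : ¬ Pseff line
  /-- `Image P Q`: for `P = (X, Δ) → S` and `Q = (Y, Δ_Y) → T` there are a projective surjective
  `S → T` and a projective generically finite surjective morphism `f : Y → X` over `T` such that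
  `f^*(K_X + Δ)` is numerically equivalent over `T` to a positive multiple of `K_Y + Δ_Y` -/
  Image : ∀ {d : ℕ}, Pair d → Pair d → Prop
  /-- a step `P ⇢ P'` lifts to a nonempty finite sequence of steps starting from `Q` -/
  lift : ∀ {d : ℕ} (P P' Q : Pair d), Image P Q → Flip P P' ∨ Div P P' →
    ∃ Q', Image P' Q' ∧ Relation.TransGen (fun A B : Pair d => Flip A B ∨ Div A B) Q Q'

variable (T : MMPTheory.{u}) {a b d : ℕ}

/-- every sequence of flips starting from `P` is finite -/
def FlipsEnd (P : T.Pair d) : Prop := ¬ ∃ s : ℕ → T.Pair d, s 0 = P ∧ ∀ i, T.Flip (s i) (s (i + 1))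

/-- a step of a minimal model program -/
def Step (P P' : T.Pair d) : Prop := T.Flip P P' ∨ T.Div P P'

/-- every sequence of flips and divisorial contractions starting from `P` is finite -/
def StepsEnd (P : T.Pair d) : Prop := ¬ ∃ s : ℕ → T.Pair d, s 0 = P ∧ ∀ i, Step T (s i) (s (i + 1))

/-- **Q1** in dimension `d` -/
def Q1 (d : ℕ) : Prop := ∀ P : T.Pair d, ¬ T.Pseff P → FlipsEnd T P

/-- The pairs generated from the pairs of dimension at most three and from a class of further pairs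
by products, steps and images. -/
inductive Generated (Seed : ∀ d : ℕ, T.Pair d → Prop) : ∀ d : ℕ, T.Pair d → Prop
  | low (d : ℕ) (P : T.Pair d) : d ≤ 3 → Generated Seed d P
  | seed (d : ℕ) (P : T.Pair d) : Seed d P → Generated Seed d P
  | prod (a b : ℕ) (P : T.Pair a) (Q : T.Pair b) :
      Generated Seed a P → Generated Seed b Q → Generated Seed (a + b) (T.prod P Q)
  | step (d : ℕ) (P P' : T.Pair d) : Step T P P' → Generated Seed d P → Generated Seed d P'
  | image (d : ℕ) (P Q : T.Pair d) : T.Image P Q → Generated Seed d Q → Generated Seed d P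

/-! ### Accessibility -/

theorem flipsEnd_iff (P : T.Pair d) :
    FlipsEnd T P ↔ Acc (fun A B : T.Pair d => T.Flip B A) P := by
  rw [FlipsEnd, ← not_iff_not, not_not, not_acc_iff_exists_descending_chain]

theorem stepsEnd_iff (P : T.Pair d) :
    StepsEnd T P ↔ Acc (fun A B : T.Pair d => Step T B A) P := by
  rw [StepsEnd, ← not_iff_not, not_not, not_acc_iff_exists_descending_chain]

/-- general facts on products -/
theorem acc_prod {α β γ : Type u} (r : α → α → Prop) (s : β → β → Prop) (t : γ → γ → Prop)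
    (m : α → β → γ)
    (h : ∀ x y z, t z (m x y) ↔ (∃ x', r x' x ∧ z = m x' y) ∨ ∃ y', s y' y ∧ z = m x y')
    (x : α) (y : β) : Acc t (m x y) ↔ Acc r x ∧ Acc s y := by
  constructor
  · intro hacc
    have key : ∀ z, Acc t z → ∀ x y, z = m x y → Acc r x ∧ Acc s y := by
      intro z hz
      induction hz with
      | intro z _ ih =>
        rintro x y rfl
        refine ⟨⟨x, fun x' hx' => ?_⟩, ⟨y, fun y' hy' => ?_⟩⟩
        · exact (ih (m x' y) ((h x y _).2 (Or.inl ⟨x', hx', rfl⟩)) x' y rfl).1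
        · exact (ih (m x y') ((h x y _).2 (Or.inr ⟨y', hy', rfl⟩)) x y' rfl).2
    exact key _ hacc x y rfl
  · rintro ⟨hx, hy⟩
    induction hx generalizing y with
    | intro x hx' ihx =>
      induction hy with
      | intro y hy' ihy =>
        refine ⟨_, fun z hz => ?_⟩
        rcases (h x y z).1 hz with ⟨x', h1, rfl⟩ | ⟨y', h1, rfl⟩
        · exact ihx x' h1 y ⟨y, hy'⟩
        · exact ihy y' h1

theorem flips_prod (P : T.Pair a) (Q : T.Pair b) :
    FlipsEnd T (T.prod P Q) ↔ FlipsEnd T P ∧ FlipsEnd T Q := by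
  rw [flipsEnd_iff, flipsEnd_iff, flipsEnd_iff]
  exact acc_prod _ _ _ (fun (P : T.Pair a) (Q : T.Pair b) => T.prod P Q)
    (fun P Q R => T.prod_flip P Q R) P Q

theorem step_prod (P : T.Pair a) (Q : T.Pair b) (R : T.Pair (a + b)) :
    Step T (T.prod P Q) R ↔
      (∃ P', Step T P P' ∧ R = T.prod P' Q) ∨ ∃ Q', Step T Q Q' ∧ R = T.prod P Q' := by
  unfold Step
  rw [T.prod_flip, T.prod_div]
  constructor
  · rintro ((⟨P', h1, h2⟩ | ⟨Q', h1, h2⟩) | (⟨P', h1, h2⟩ | ⟨Q', h1, h2⟩))
    · exact Or.inl ⟨P', Or.inl h1, h2⟩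
    · exact Or.inr ⟨Q', Or.inl h1, h2⟩
    · exact Or.inl ⟨P', Or.inr h1, h2⟩
    · exact Or.inr ⟨Q', Or.inr h1, h2⟩
  · rintro (⟨P', h1 | h1, h2⟩ | ⟨Q', h1 | h1, h2⟩)
    · exact Or.inl (Or.inl ⟨P', h1, h2⟩)
    · exact Or.inr (Or.inl ⟨P', h1, h2⟩)
    · exact Or.inl (Or.inr ⟨Q', h1, h2⟩)
    · exact Or.inr (Or.inr ⟨Q', h1, h2⟩)

theorem steps_prod (P : T.Pair a) (Q : T.Pair b) :
    StepsEnd T (T.prod P Q) ↔ StepsEnd T P ∧ StepsEnd T Q := by
  rw [stepsEnd_iff, stepsEnd_iff, stepsEnd_iff]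
  exact acc_prod _ _ _ (fun (P : T.Pair a) (Q : T.Pair b) => T.prod P Q)
    (fun P Q R => step_prod T P Q R) P Q

theorem flipsEnd_of_steps {P : T.Pair d} (h : StepsEnd T P) : FlipsEnd T P := by
  rintro ⟨s, h0, hs⟩
  exact h ⟨s, h0, fun i => Or.inl (hs i)⟩

/-- if all sequences of flips in dimension `d` are finite, then so are all sequences of steps -/
theorem steps_of_flips (h : ∀ P : T.Pair d, FlipsEnd T P) (P : T.Pair d) : StepsEnd T P := by
  rw [stepsEnd_iff]
  have key : ∀ n : ℕ, ∀ P : T.Pair d, T.rho P = n →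
      Acc (fun A B : T.Pair d => Step T B A) P := by
    intro n
    induction n using Nat.strong_induction_on with
    | _ n ih =>
      intro P
      have hP := (flipsEnd_iff T P).1 (h P)
      induction hP with
      | intro P _ ihP =>
        intro hn
        refine ⟨_, fun R hR => ?_⟩
        rcases hR with hR | hR
        · exact ihP R hR (by rw [T.rho_flip _ _ hR, hn])
        · exact ih (T.rho R) (by rw [← hn]; exact T.rho_div _ _ hR) R rfl
  exact key _ P rfl

theorem steps_low (hd : d ≤ 3) (P : T.Pair d) : StepsEnd T P :=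
  steps_of_flips T (fun _ => fun ⟨s, _, hs⟩ => T.low hd s hs) P

theorem swap_transGen {α : Type u} {r : α → α → Prop} {x y : α} (h : Relation.TransGen r x y) :
    Relation.TransGen (fun A B => r B A) y x := by
  induction h with
  | single h => exact Relation.TransGen.single h
  | tail _ h ih => exact Relation.TransGen.head h ih

theorem steps_image {P Q : T.Pair d} (h : T.Image P Q) (hQ : StepsEnd T Q) : StepsEnd T P := by
  rw [stepsEnd_iff] at hQ ⊢
  have key : ∀ Q, Acc (Relation.TransGen fun A B : T.Pair d => Step T B A) Q →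
      ∀ P, T.Image P Q → Acc (fun A B : T.Pair d => Step T B A) P := by
    intro Q hQ
    induction hQ with
    | intro Q _ ih =>
      intro P h
      refine ⟨_, fun P' hP' => ?_⟩
      obtain ⟨Q', h1, h2⟩ := T.lift P P' Q h hP'
      exact ih Q' (swap_transGen h2) P' h1
  exact key Q hQ.transGen P h

theorem steps_generated (Seed : ∀ d : ℕ, T.Pair d → Prop)
    (hS : ∀ (d : ℕ) (P : T.Pair d), Seed d P → StepsEnd T P) (P : T.Pair d)
    (h : Generated T Seed d P) : StepsEnd T P := by
  induction h with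
  | low d P hd => exact steps_low T hd P
  | seed d P h => exact hS d P h
  | prod a b P Q _ _ ih1 ih2 => exact (steps_prod T P Q).2 ⟨ih1, ih2⟩
  | step d P P' h _ ih =>
    rw [stepsEnd_iff] at ih ⊢
    exact ih.inv h
  | image d P Q h _ ih => exact steps_image T h ih

theorem flips_line : FlipsEnd T T.line :=
  flipsEnd_of_steps T (steps_low T (by norm_num) T.line)

/-- **Main theorem.** -/
theorem result (T : MMPTheory.{u}) :
    (∀ (a b : ℕ) (P : T.Pair a) (Q : T.Pair b),
      (FlipsEnd T (T.prod P Q) ↔ FlipsEnd T P ∧ FlipsEnd T Q) ∧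
      (StepsEnd T (T.prod P Q) ↔ StepsEnd T P ∧ StepsEnd T Q)) ∧
    (∀ Seed : ∀ d : ℕ, T.Pair d → Prop, (∀ (d : ℕ) (P : T.Pair d), Seed d P → StepsEnd T P) →
      ∀ (d : ℕ) (P : T.Pair d), Generated T Seed d P → StepsEnd T P ∧ FlipsEnd T P) ∧
    (∀ d : ℕ, ((∀ P : T.Pair d, FlipsEnd T (T.prod P T.line)) ↔ ∀ P : T.Pair d, StepsEnd T P) ∧
      (Q1 T (d + 1) → ∀ P : T.Pair d, StepsEnd T P)) ∧
    ((∀ d : ℕ, Q1 T d) ↔ ∀ (d : ℕ) (P : T.Pair d), StepsEnd T P) := by
  have hone : ∀ (d : ℕ) (P : T.Pair d), FlipsEnd T (T.prod P T.line) ↔ FlipsEnd T P := by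
    intro d P
    rw [flips_prod]
    exact ⟨fun h => h.1, fun h => ⟨h, flips_line T⟩⟩
  have hQ : ∀ d : ℕ, Q1 T (d + 1) → ∀ P : T.Pair d, StepsEnd T P := by
    intro d h
    refine steps_of_flips T fun P => ?_
    refine (hone d P).1 (h (T.prod P T.line) fun hP => ?_)
    exact T.line_pseff ((T.prod_pseff P T.line).1 hP).2
  refine ⟨fun a b P Q => ⟨flips_prod T P Q, steps_prod T P Q⟩, fun Seed hS d P h => ?_,
    fun d => ⟨⟨fun h => steps_of_flips T fun P => (hone d P).1 (h P),
      fun h P => (hone d P).2 (flipsEnd_of_steps T (h P))⟩, hQ d⟩,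
    ⟨fun h d => hQ d (h (d + 1)), fun h d P _ => flipsEnd_of_steps T (h d P)⟩⟩
  have h1 := steps_generated T Seed hS P h
  exact ⟨h1, flipsEnd_of_steps T h1⟩

end Pool.Agent.Results.MP_89a3f8_ag.ProductsAndImages
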